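import Pool.Agent.R79.LP4.Split

/-! Incidence vectors of linear uniform hypergraphs: inner products. -/

set_option autoImplicit false
open Finset

namespace Pool.Agent.R79.LP4

variable {V : Type} [Fintype V] [DecidableEq V]

/-- sum of the weights of the edges through `v` -/
def T (F : Finset (Finset V)) (y : Finset V → ℝ) (v : V) : ℝ :=
  ∑ e ∈ F, if v ∈ e then y e else 0

/-- total weight -/
def sg (F : Finset (Finset V)) (y : Finset V → ℝ) : ℝ := ∑ e ∈ F, y e

/-- the vertices covered by the edges -/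
def VF (F : Finset (Finset V)) : Finset V := F.biUnion id

/-- an `r`-uniform linear hypergraph without a linear path with four edges -/
structure Good (r : ℕ) (F : Finset (Finset V)) : Prop where
  unif : ∀ e ∈ F, e.card = r
  lin : ∀ e ∈ F, ∀ f ∈ F, e ≠ f → (e ∩ f).card ≤ 1
  free : ∀ a ∈ F, ∀ b ∈ F, ∀ c ∈ F, ∀ d ∈ F, (a ∩ b).Nonempty → (b ∩ c).Nonempty →
    (c ∩ d).Nonempty → ¬ (a ∩ c).Nonempty → ¬ (a ∩ d).Nonempty → ¬ (b ∩ d).Nonempty → False

theorem Good.mono {r : ℕ} {F G : Finset (Finset V)} (h : Good r F) (hG : G ⊆ F) : Good r G :=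
  ⟨fun e he => h.unif e (hG he), fun e he f hf => h.lin e (hG he) f (hG hf),
    fun a ha b hb c hc d hd => h.free a (hG ha) b (hG hb) c (hG hc) d (hG hd)⟩

theorem mem_VF {F : Finset (Finset V)} {v : V} : v ∈ VF F ↔ ∃ e ∈ F, v ∈ e := by
  unfold VF; simp

theorem T_congr {F : Finset (Finset V)} {y z : Finset V → ℝ} (h : ∀ e ∈ F, y e = z e) (v : V) :
    T F y v = T F z v := sum_congr rfl fun e he => by rw [h e he]

theorem sg_congr {F : Finset (Finset V)} {y z : Finset V → ℝ} (h : ∀ e ∈ F, y e = z e) :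
    sg F y = sg F z := sum_congr rfl fun e he => h e he

theorem T_add (F : Finset (Finset V)) (y z : Finset V → ℝ) (v : V) :
    T F (fun e => y e + z e) v = T F y v + T F z v := by
  unfold T
  rw [← sum_add_distrib]
  exact sum_congr rfl fun e _ => by split_ifs <;> simp

theorem T_smul (F : Finset (Finset V)) (c : ℝ) (y : Finset V → ℝ) (v : V) :
    T F (fun e => c * y e) v = c * T F y v := by
  unfold T
  rw [mul_sum]
  exact sum_congr rfl fun e _ => by split_ifs <;> simp

theorem T_union {A B : Finset (Finset V)} (hd : Disjoint A B) (y : Finset V → ℝ) (v : V) :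
    T (A ∪ B) y v = T A y v + T B y v := sum_union hd

theorem sg_union {A B : Finset (Finset V)} (hd : Disjoint A B) (y : Finset V → ℝ) :
    sg (A ∪ B) y = sg A y + sg B y := sum_union hd

theorem T_out {F : Finset (Finset V)} {v : V} (hv : v ∉ VF F) (y : Finset V → ℝ) :
    T F y v = 0 := sum_eq_zero fun e he => by
  rw [if_neg fun h => hv (mem_VF.2 ⟨e, he, h⟩)]

theorem card_inter_eq (e f : Finset V) :
    ((e ∩ f).card : ℝ) = ∑ v, (if v ∈ e then (1 : ℝ) else 0) * (if v ∈ f then 1 else 0) := by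
  rw [card_eq_sum_ones, Nat.cast_sum]
  have : ∀ v : V, (if v ∈ e then (1 : ℝ) else 0) * (if v ∈ f then 1 else 0)
      = if v ∈ e ∩ f then 1 else 0 := by
    intro v
    by_cases h1 : v ∈ e <;> by_cases h2 : v ∈ f <;> simp [h1, h2]
  simp only [this]
  rw [sum_ite_mem, univ_inter]
  simp

theorem inner (F G : Finset (Finset V)) (y z : Finset V → ℝ) :
    ∑ v, T F y v * T G z v = ∑ e ∈ F, ∑ f ∈ G, y e * z f * ((e ∩ f).card : ℝ) := by
  unfold T
  simp only [sum_mul_sum]
  rw [sum_comm]
  refine sum_congr rfl fun e _ => ?_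
  rw [sum_comm]
  refine sum_congr rfl fun f _ => ?_
  rw [card_inter_eq, mul_sum]
  refine sum_congr rfl fun v _ => ?_
  by_cases h1 : v ∈ e <;> by_cases h2 : v ∈ f <;> simp [h1, h2]

theorem tot {r : ℕ} {F : Finset (Finset V)} (h : ∀ e ∈ F, e.card = r) (y : Finset V → ℝ) :
    ∑ v, T F y v = r * sg F y := by
  unfold T sg
  rw [sum_comm, mul_sum]
  refine sum_congr rfl fun e he => ?_
  rw [sum_ite_mem, univ_inter, sum_const, h e he, nsmul_eq_mul]

theorem pairE (F : Finset (Finset V)) (y : Finset V → ℝ) (e : Finset V) :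
    ∑ v ∈ e, T F y v = ∑ f ∈ F, y f * ((e ∩ f).card : ℝ) := by
  unfold T
  rw [sum_comm]
  refine sum_congr rfl fun f _ => ?_
  rw [sum_ite_mem, sum_const, nsmul_eq_mul, mul_comm]

theorem pairW (F : Finset (Finset V)) (y : Finset V → ℝ) (w : V → ℝ) :
    ∑ v, T F y v * w v = ∑ f ∈ F, y f * ∑ v ∈ f, w v := by
  unfold T
  simp only [sum_mul]
  rw [sum_comm]
  refine sum_congr rfl fun f _ => ?_
  rw [mul_sum]
  simp only [ite_mul, zero_mul]
  rw [sum_ite_mem, univ_inter]

/-- the kernel of the transposed incidence matrix -/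
def Z (F : Finset (Finset V)) : Submodule ℝ (Finset V → ℝ) where
  carrier := {y | (∀ e, e ∉ F → y e = 0) ∧ ∀ v, T F y v = 0}
  add_mem' := by
    rintro y z ⟨h1, h2⟩ ⟨h3, h4⟩
    refine ⟨fun e he => ?_, fun v => ?_⟩
    · rw [Pi.add_apply, h1 e he, h3 e he, add_zero]
    · have := T_add F y z v
      rw [h2 v, h4 v, add_zero] at this
      exact this
  zero_mem' := ⟨fun _ _ => rfl, fun v => by unfold T; simp⟩
  smul_mem' := by
    rintro c y ⟨h1, h2⟩
    refine ⟨fun e he => ?_, fun v => ?_⟩
    · rw [Pi.smul_apply, h1 e he, smul_zero]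
    · have := T_smul F c y v
      rw [h2 v, mul_zero] at this
      exact this

theorem mem_Z {F : Finset (Finset V)} {y : Finset V → ℝ} :
    y ∈ Z F ↔ (∀ e, e ∉ F → y e = 0) ∧ ∀ v, T F y v = 0 := Iff.rfl

/-- dimension of the kernel -/
noncomputable def nu (F : Finset (Finset V)) : ℕ := Module.finrank ℝ (Z F)

theorem nu_le_card {F : Finset (Finset V)} (S : Finset (Finset V))
    (h : ∀ y ∈ Z F, (∀ g ∈ S, y g = 0) → y = 0) : nu F ≤ S.card := by
  let L : Z F →ₗ[ℝ] (S → ℝ) :=
    { toFun := fun y g => y.1 g.1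
      map_add' := fun y z => rfl
      map_smul' := fun c y => rfl }
  have inj : Function.Injective L := by
    rw [← LinearMap.ker_eq_bot, LinearMap.ker_eq_bot']
    intro y hy
    refine Subtype.ext (h y.1 y.2 fun g hg => ?_)
    exact congrFun hy ⟨g, hg⟩
  have := LinearMap.finrank_le_finrank_of_injective inj
  rw [Module.finrank_fintype_fun_eq_card, Fintype.card_coe] at this
  exact this

theorem nu_zero {F : Finset (Finset V)} (h : ∀ y ∈ Z F, y = 0) : nu F = 0 := by
  have := nu_le_card (F := F) ∅ (fun y hy _ => h y hy)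
  rw [card_empty] at this
  omega

/-- restriction to a family -/
def res (A : Finset (Finset V)) (y : Finset V → ℝ) : Finset V → ℝ := fun e => if e ∈ A then y e else 0

theorem res_of {A : Finset (Finset V)} {y : Finset V → ℝ} {e : Finset V} (he : e ∈ A) :
    res A y e = y e := if_pos he

theorem T_res (A : Finset (Finset V)) (y : Finset V → ℝ) (v : V) : T A (res A y) v = T A y v :=
  T_congr (fun _ he => res_of he) v

theorem res_mem {A : Finset (Finset V)} {y : Finset V → ℝ} (h : ∀ v, T A y v = 0) :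
    res A y ∈ Z A := ⟨fun _ he => if_neg he, fun v => by rw [T_res, h v]⟩

theorem nu_union {A B : Finset (Finset V)} (hd : Disjoint A B)
    (h : ∀ y ∈ Z (A ∪ B), ∀ v, T A y v = 0) : nu (A ∪ B) ≤ nu A + nu B := by
  have hle : Z (A ∪ B) ≤ Z A ⊔ Z B := by
    intro y hy
    have h1 : ∀ v, T B y v = 0 := by
      intro v
      have := hy.2 v
      rw [T_union hd, h y hy v, zero_add] at this
      exact this
    have h2 : y = res A y + res B y := by
      ext e
      rw [Pi.add_apply]
      unfold res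
      by_cases hA : e ∈ A
      · rw [if_pos hA, if_neg (disjoint_left.1 hd hA), add_zero]
      · by_cases hB : e ∈ B
        · rw [if_neg hA, if_pos hB, zero_add]
        · rw [if_neg hA, if_neg hB, hy.1 e (by rw [mem_union]; tauto), add_zero]
    rw [h2]
    exact Submodule.add_mem_sup (res_mem (h y hy)) (res_mem h1)
  calc nu (A ∪ B) ≤ Module.finrank ℝ ↥(Z A ⊔ Z B) := Submodule.finrank_mono hle
    _ ≤ nu A + nu B := Submodule.finrank_add_le_finrank_add_finrank _ _

theorem rank (F : Finset (Finset V)) : F.card ≤ (VF F).card + nu F := by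
  let L : (Finset V → ℝ) →ₗ[ℝ] ((VF F → ℝ) × ((Fᶜ : Finset (Finset V)) → ℝ)) :=
    { toFun := fun y => (fun v => T F y v.1, fun e => y e.1)
      map_add' := fun y z => by
        refine Prod.ext (funext fun v => T_add F y z v.1) rfl
      map_smul' := fun c y => by
        refine Prod.ext (funext fun v => T_smul F c y v.1) rfl }
  have hker : LinearMap.ker L = Z F := by
    ext y
    rw [LinearMap.mem_ker, mem_Z]
    constructor
    · intro h
      have h1 := congrArg Prod.fst h
      have h2 := congrArg Prod.snd h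
      refine ⟨fun e he => congrFun h2 ⟨e, mem_compl.2 he⟩, fun v => ?_⟩
      by_cases hv : v ∈ VF F
      · exact congrFun h1 ⟨v, hv⟩
      · exact T_out hv y
    · rintro ⟨h1, h2⟩
      refine Prod.ext (funext fun v => h2 v.1) (funext fun e => h1 e.1 (mem_compl.1 e.2))
  have h1 := LinearMap.finrank_range_add_finrank_ker L
  rw [hker, Module.finrank_fintype_fun_eq_card] at h1
  have h2 := Submodule.finrank_le (LinearMap.range L)
  rw [Module.finrank_prod, Module.finrank_fintype_fun_eq_card, Module.finrank_fintype_fun_eq_card,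
    Fintype.card_coe, Fintype.card_coe] at h2
  have h3 := card_add_card_compl F
  unfold nu
  omega

/-- any two edges of the two families meet in exactly one vertex -/
theorem meet_one {r : ℕ} {A B : Finset (Finset V)} (hG : Good r (A ∪ B)) (hd : Disjoint A B)
    (hm : ∀ a ∈ A, ∀ b ∈ B, (a ∩ b).Nonempty) : ∀ a ∈ A, ∀ b ∈ B, (a ∩ b).card = 1 := by
  intro a ha b hb
  have h1 := hG.lin a (mem_union_left _ ha) b (mem_union_right _ hb) (by
    rintro rfl; exact disjoint_left.1 hd ha hb)
  have h2 := card_pos.2 (hm a ha b hb)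
  omega

theorem join_inner {A B : Finset (Finset V)} (h1 : ∀ a ∈ A, ∀ b ∈ B, (a ∩ b).card = 1)
    (y z : Finset V → ℝ) : ∑ v, T A y v * T B z v = sg A y * sg B z := by
  rw [inner]
  unfold sg
  rw [sum_mul_sum]
  exact sum_congr rfl fun e he => sum_congr rfl fun f hf => by
    rw [h1 e he f hf, Nat.cast_one, mul_one]

theorem join_pair {A : Finset (Finset V)} {b : Finset V} (h1 : ∀ a ∈ A, (b ∩ a).card = 1)
    (y : Finset V → ℝ) : ∑ v ∈ b, T A y v = sg A y := by
  rw [pairE]
  unfold sg
  exact sum_congr rfl fun f hf => by rw [h1 f hf, Nat.cast_one, mul_one]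

theorem sg_zero {r : ℕ} (hr : 2 ≤ r) {F : Finset (Finset V)} (hF : Good r F) {y : Finset V → ℝ}
    (hy : ∀ v, T F y v = 0) : sg F y = 0 := by
  have h := tot hF.unif y
  rw [sum_eq_zero fun v _ => hy v] at h
  have hr' : (r : ℝ) ≠ 0 := by
    have : r ≠ 0 := by omega
    exact_mod_cast this
  rcases mul_eq_zero.1 h.symm with h | h
  · exact absurd h hr'
  · exact h

/-- the absolute values of a kernel vector -/
theorem abs_le {r : ℕ} (hr : 2 ≤ r) {F : Finset (Finset V)} (hF : Good r F) {z : Finset V → ℝ}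
    (hz : ∀ v, T F z v = 0) :
    ∑ v, T F (fun e => |z e|) v ^ 2 ≤ sg F (fun e => |z e|) ^ 2 := by
  have h0 : ∑ v, T F z v * T F z v = 0 := sum_eq_zero fun v _ => by rw [hz v, mul_zero]
  have hs : sg F z * sg F z = 0 := by rw [sg_zero hr hF hz, mul_zero]
  rw [inner] at h0
  unfold sg at hs
  rw [sum_mul_sum] at hs
  have e1 : ∑ v, T F (fun e => |z e|) v ^ 2 = ∑ e ∈ F, ∑ f ∈ F, |z e| * |z f| * ((e ∩ f).card : ℝ) := by
    rw [← inner]
    exact sum_congr rfl fun v _ => sq _
  have e2 : sg F (fun e => |z e|) ^ 2 = ∑ e ∈ F, ∑ f ∈ F, |z e| * |z f| := by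
    unfold sg
    rw [sq, sum_mul_sum]
  rw [e1, e2]
  have h3 : ∑ e ∈ F, ∑ f ∈ F, (z e * z f - z e * z f * ((e ∩ f).card : ℝ)) ≤
      ∑ e ∈ F, ∑ f ∈ F, (|z e| * |z f| - |z e| * |z f| * ((e ∩ f).card : ℝ)) := by
    refine sum_le_sum fun e he => sum_le_sum fun f hf => ?_
    by_cases hef : e = f
    · subst hef
      rw [abs_mul_abs_self]
    · have h5 : ((e ∩ f).card : ℝ) ≤ 1 := by exact_mod_cast hF.lin e he f hf hef
      have h6 : z e * z f ≤ |z e| * |z f| := by rw [← abs_mul]; exact le_abs_self _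
      nlinarith
  simp only [sum_sub_distrib] at h3
  linarith

end Pool.Agent.R79.LP4
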