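import Pool.Agent.R79.LP4.Val

/-! The dimension of the kernel is at most `|V(F)| / r`. -/

set_option autoImplicit false
open Finset

namespace Pool.Agent.R79.LP4

variable {V : Type} [Fintype V] [DecidableEq V]

/-- the edges through `v` -/
def thr (F : Finset (Finset V)) (v : V) : Finset (Finset V) := F.filter fun g => v ∈ g

/-- two vertices on a common edge -/
def con (F : Finset (Finset V)) (u v : V) : Prop := ∃ e ∈ F, u ∈ e ∧ v ∈ e

/-- every vertex has degree `r + 1` and collinearity is transitive -/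
structure Pl (r : ℕ) (F : Finset (Finset V)) : Prop where
  deg : ∀ v ∈ VF F, (thr F v).card = r + 1
  tr : ∀ u v w, con F u v → con F v w → con F u w

theorem star_card {r : ℕ} (hr : 2 ≤ r) {F : Finset (Finset V)} (hG : Good r F) {v : V}
    (hv : v ∈ VF F) : ((thr F v).biUnion id).card = 1 + (thr F v).card * (r - 1) := by
  have h1 : (thr F v).biUnion id = insert v ((thr F v).biUnion fun g => g.erase v) := by
    ext x
    simp only [mem_biUnion, id, mem_insert, mem_erase]
    constructor
    · rintro ⟨g, hg, hx⟩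
      by_cases h : x = v
      · exact Or.inl h
      · exact Or.inr ⟨g, hg, h, hx⟩
    · rintro (rfl | ⟨g, hg, h, hx⟩)
      · obtain ⟨g, hg, hvg⟩ := mem_VF.1 hv
        exact ⟨g, mem_filter.2 ⟨hg, hvg⟩, hvg⟩
      · exact ⟨g, hg, hx⟩
  rw [h1, card_insert_of_notMem (by simp), card_biUnion]
  · rw [sum_const_nat (m := r - 1)]
    · ring
    · intro g hg
      have := mem_filter.1 hg
      rw [card_erase_of_mem this.2, hG.unif g this.1]
  · intro g hg h hh hne
    rw [Function.onFun, disjoint_left]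
    intro x hx hx'
    rw [mem_erase] at hx hx'
    have hg' := mem_filter.1 hg
    have hh' := mem_filter.1 hh
    have h2 := hG.lin g hg'.1 h hh'.1 hne
    have h3 : ({x, v} : Finset V) ⊆ g ∩ h := by
      intro z hz
      rw [mem_insert, mem_singleton] at hz
      rcases hz with rfl | rfl
      · exact mem_inter.2 ⟨hx.2, hx'.2⟩
      · exact mem_inter.2 ⟨hg'.2, hh'.2⟩
    have h4 := card_le_card h3
    rw [card_pair hx.1] at h4
    omega

theorem star_sub (F : Finset (Finset V)) (v : V) : (thr F v).biUnion id ⊆ VF F := by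
  intro x hx
  simp only [mem_biUnion, id] at hx
  obtain ⟨g, hg, hx⟩ := hx
  exact mem_VF.2 ⟨g, (mem_filter.1 hg).1, hx⟩

/-- the number of incidences -/
theorem count (F : Finset (Finset V)) (S : Finset V) :
    ∑ g ∈ F, (S ∩ g).card = ∑ v ∈ S, (thr F v).card := by
  unfold thr
  simp only [card_filter]
  rw [sum_comm]
  refine sum_congr rfl fun g _ => ?_
  rw [card_eq_sum_ones, ← sum_ite_mem]

theorem VF_card_ge {r : ℕ} (hr : 2 ≤ r) {F : Finset (Finset V)} {w : V → ℝ}
    (hw : Val F w) (hs : ∑ v, w v = r) (h0 : ∀ v, v ∉ VF F → w v = 0) : r ^ 2 ≤ (VF F).card := by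
  have h1 : ∑ v ∈ VF F, w v = r := by
    rw [← hs]
    exact sum_subset (subset_univ _) fun v _ hv => h0 v hv
  have h2 : ∑ v ∈ VF F, w v ^ 2 = 1 := by
    rw [← hw.norm]
    exact sum_subset (subset_univ _) fun v _ hv => by rw [h0 v hv]; ring
  have h3 := sq_sum_le_card_mul_sum_sq (s := VF F) (f := w)
  rw [h1, h2, mul_one] at h3
  exact_mod_cast h3

theorem w_const {r : ℕ} (hr : 2 ≤ r) {F : Finset (Finset V)} {w : V → ℝ}
    (hw : Val F w) (hs : ∑ v, w v = r) (h0 : ∀ v, v ∉ VF F → w v = 0)
    (hc : (VF F).card = r ^ 2) : ∀ v ∈ VF F, w v ≠ 0 := by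
  have hrr : (2 : ℝ) ≤ r := by exact_mod_cast hr
  have h1 : ∑ v ∈ VF F, w v = r := by
    rw [← hs]
    exact sum_subset (subset_univ _) fun v _ hv => h0 v hv
  have h2 : ∑ v ∈ VF F, w v ^ 2 = 1 := by
    rw [← hw.norm]
    exact sum_subset (subset_univ _) fun v _ hv => by rw [h0 v hv]; ring
  have h3 : ∑ v ∈ VF F, (r * w v - 1) ^ 2 = 0 := by
    have : ∑ v ∈ VF F, (r * w v - 1) ^ 2
        = (r : ℝ) ^ 2 * ∑ v ∈ VF F, w v ^ 2 - 2 * r * ∑ v ∈ VF F, w v + ∑ v ∈ VF F, (1 : ℝ) := by
      rw [mul_sum, mul_sum, ← sum_sub_distrib, ← sum_add_distrib]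
      exact sum_congr rfl fun v _ => by ring
    rw [this, h1, h2, sum_const, hc, nsmul_eq_mul]
    push_cast
    ring
  have h4 := (sum_eq_zero_iff_of_nonneg fun v _ => sq_nonneg _).1 h3
  intro v hv h
  have := h4 v hv
  rw [h] at this
  norm_num at this

/-- the extremal case with a special vector -/
theorem val_plane {r : ℕ} (hr : 2 ≤ r) {F : Finset (Finset V)} (hG : Good r F) {w : V → ℝ}
    (hw : Val F w) (hs : ∑ v, w v = r) (h0 : ∀ v, v ∉ VF F → w v = 0)
    (hc : (VF F).card = r ^ 2) (hnu : nu F = r) : Pl r F := by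
  have hne := w_const hr hw hs h0 hc
  have hdeg : ∀ v ∈ VF F, (thr F v).card = r + 1 ∧ (thr F v).biUnion id = VF F := by
    intro v hv
    have h1 : ¬ ∀ e ∈ F, v ∈ e := by
      intro h
      have := star_nu hr hG h
      omega
    push Not at h1
    obtain ⟨e0, he0, hve0⟩ := h1
    have hinj := near_inj hr hG hw (hne v hv) he0
    have h2 := nu_le_card _ hinj
    have h3 := near_card hG he0 hve0
    have hsub : near F v e0 ⊆ thr F v := fun g hg => by
      have := mem_filter.1 hg
      exact mem_filter.2 ⟨this.1, this.2.1⟩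
    have h4 : r + 1 ≤ (thr F v).card := by
      by_contra hlt
      have h5 : near F v e0 = thr F v := eq_of_subset_of_card_le hsub (by omega)
      obtain ⟨g0, hg0, hvg0⟩ := mem_VF.1 hv
      have hg0' : g0 ∈ thr F v := mem_filter.2 ⟨hg0, hvg0⟩
      have h6 : nu F ≤ ((thr F v).erase g0).card := by
        refine nu_le_card _ fun y hy hyz => hinj y hy fun g hg => ?_
        rw [h5] at hg
        by_cases hgg : g = g0
        · have h7 := hy.2 v
          unfold T at h7
          rw [← sum_filter] at h7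
          have h8 : ∑ e ∈ thr F v, y e = y g0 := by
            refine sum_eq_single g0 (fun e he hne' => hyz e (mem_erase.2 ⟨hne', he⟩))
              (fun h => absurd hg0' h)
          unfold thr at h8
          rw [h8] at h7
          rw [hgg]; exact h7
        · exact hyz g (mem_erase.2 ⟨hgg, hg⟩)
      rw [card_erase_of_mem hg0', ← h5] at h6
      omega
    have h5 := card_le_card (star_sub F v)
    rw [star_card hr hG hv, hc] at h5
    have h6 : (thr F v).card ≤ r + 1 := by
      by_contra hlt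
      have h7 : r + 2 ≤ (thr F v).card := by omega
      have h8 : (r + 2) * (r - 1) ≤ (thr F v).card * (r - 1) := Nat.mul_le_mul_right _ h7
      obtain ⟨k, rfl⟩ : ∃ k, r = k + 2 := ⟨r - 2, by omega⟩
      have e1 : k + 2 - 1 = k + 1 := by omega
      rw [e1] at h5 h8
      nlinarith
    have h7 : (thr F v).card = r + 1 := by omega
    refine ⟨h7, eq_of_subset_of_card_le (star_sub F v) ?_⟩
    rw [star_card hr hG hv, h7, hc]
    obtain ⟨k, rfl⟩ : ∃ k, r = k + 2 := ⟨r - 2, by omega⟩
    have e1 : k + 2 - 1 = k + 1 := by omega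
    rw [e1]
    nlinarith
  refine ⟨fun v hv => (hdeg v hv).1, ?_⟩
  rintro u v x ⟨e, he, hu, hv⟩ ⟨f, hf, hv', hx⟩
  have hU : u ∈ VF F := mem_VF.2 ⟨e, he, hu⟩
  have hX : x ∈ VF F := mem_VF.2 ⟨f, hf, hx⟩
  rw [← (hdeg u hU).2] at hX
  simp only [mem_biUnion, id] at hX
  obtain ⟨g, hg, hxg⟩ := hX
  have := mem_filter.1 hg
  exact ⟨g, this.1, this.2, hxg⟩

/-- a kernel vector of a join with nonzero weight on one side gives a special vector -/
theorem make_val {r : ℕ} (hr : 2 ≤ r) {A B : Finset (Finset V)} (hG : Good r (A ∪ B))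
    (hd : Disjoint A B) (h1 : ∀ a ∈ A, ∀ b ∈ B, (a ∩ b).card = 1) {y : Finset V → ℝ}
    (hy : y ∈ Z (A ∪ B)) (hs : sg A y ≠ 0) :
    ∃ w : V → ℝ, Val (A ∪ B) w ∧ ∑ v, w v = r ∧ ∀ v, v ∉ VF (A ∪ B) → w v = 0 := by
  have h1' : ∀ b ∈ B, ∀ a ∈ A, (b ∩ a).card = 1 := fun b hb a ha => by
    rw [inter_comm]; exact h1 a ha b hb
  have hsum : sg A y + sg B y = 0 := by rw [← sg_union hd]; exact sg_zero hr hG hy.2
  have hT : ∀ v, T B y v = -T A y v := fun v => by
    have := hy.2 v
    rw [T_union hd] at this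
    linarith
  have hn : ∑ v, T A y v ^ 2 = sg A y ^ 2 := by
    have h2 := join_inner h1 y y
    have h3 : ∑ v, T A y v * T B y v = -∑ v, T A y v ^ 2 := by
      rw [← sum_neg_distrib]
      exact sum_congr rfl fun v _ => by rw [hT]; ring
    rw [h3] at h2
    have : sg B y = -sg A y := by linarith
    rw [this] at h2
    linarith
  refine ⟨fun v => T A y v / sg A y, ⟨?_, ?_⟩, ?_, ?_⟩
  · simp only [div_pow]
    rw [← sum_div, hn]
    field_simp
  · intro e he
    rw [← sum_div]
    rcases mem_union.1 he with he | he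
    · have h2 : ∑ v ∈ e, T A y v = sg A y := by
        have h3 := join_pair (h1 e he) y
        have h4 : ∑ v ∈ e, T B y v = -∑ v ∈ e, T A y v := by
          rw [← sum_neg_distrib]
          exact sum_congr rfl fun v _ => hT v
        linarith
      rw [h2]; field_simp
    · rw [join_pair (h1' e he) y]; field_simp
  · rw [← sum_div, tot (fun e he => hG.unif e (mem_union_left _ he))]
    field_simp
  · intro v hv
    have : v ∉ VF A := fun h => by
      obtain ⟨a, ha, hva⟩ := mem_VF.1 h
      exact hv (mem_VF.2 ⟨a, mem_union_left _ ha, hva⟩)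
    change T A y v / sg A y = 0
    rw [T_out this, zero_div]

/-- normalised absolute values of a nonzero kernel vector -/
theorem unit_abs {r : ℕ} (hr : 2 ≤ r) {F : Finset (Finset V)} (hG : Good r F) {z : Finset V → ℝ}
    (hz : z ∈ Z F) (hne : z ≠ 0) :
    ∃ u : Finset V → ℝ, sg F u = 1 ∧ ∑ v, T F u v ^ 2 ≤ 1 := by
  have h1 : ∃ e ∈ F, z e ≠ 0 := by
    by_contra h
    push Not at h
    apply hne
    funext e
    by_cases he : e ∈ F
    · exact h e he
    · exact hz.1 e he
  obtain ⟨e0, he0, hze0⟩ := h1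
  set s := sg F (fun e => |z e|) with hs
  have hspos : 0 < s := by
    rw [hs]
    unfold sg
    exact sum_pos' (fun e _ => abs_nonneg _) ⟨e0, he0, abs_pos.2 hze0⟩
  refine ⟨fun e => s⁻¹ * |z e|, ?_, ?_⟩
  · unfold sg
    rw [← mul_sum]
    change s⁻¹ * s = 1
    field_simp
  · have h2 := abs_le hr hG hz.2
    rw [← hs] at h2
    have h3 : ∑ v, T F (fun e => s⁻¹ * |z e|) v ^ 2 = s⁻¹ ^ 2 * ∑ v, T F (fun e => |z e|) v ^ 2 := by
      rw [mul_sum]
      exact sum_congr rfl fun v _ => by rw [T_smul]; ring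
    rw [h3]
    calc s⁻¹ ^ 2 * ∑ v, T F (fun e => |z e|) v ^ 2 ≤ s⁻¹ ^ 2 * s ^ 2 :=
        mul_le_mul_of_nonneg_left h2 (sq_nonneg _)
      _ = 1 := by field_simp

/-- one of the two kernels is trivial if all kernel vectors of the join have weight zero -/
theorem one_trivial {r : ℕ} (hr : 2 ≤ r) {A B : Finset (Finset V)} (hG : Good r (A ∪ B))
    (hd : Disjoint A B) (h1 : ∀ a ∈ A, ∀ b ∈ B, (a ∩ b).card = 1)
    (h : ∀ y ∈ Z (A ∪ B), sg A y = 0) : (∀ y ∈ Z A, y = 0) ∨ (∀ y ∈ Z B, y = 0) := by
  by_contra hcon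
  push Not at hcon
  obtain ⟨⟨z, hz, hz0⟩, z', hz', hz0'⟩ := hcon
  obtain ⟨u, hu1, hu2⟩ := unit_abs hr (hG.mono subset_union_left) hz hz0
  obtain ⟨u', hu1', hu2'⟩ := unit_abs hr (hG.mono subset_union_right) hz' hz0'
  have h2 := join_inner h1 u u'
  rw [hu1, hu1', mul_one] at h2
  have h3 : ∑ v, (T A u v - T B u' v) ^ 2 ≤ 0 := by
    have : ∑ v, (T A u v - T B u' v) ^ 2
        = ∑ v, T A u v ^ 2 - 2 * ∑ v, T A u v * T B u' v + ∑ v, T B u' v ^ 2 := by
      rw [mul_sum, ← sum_sub_distrib, ← sum_add_distrib]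
      exact sum_congr rfl fun v _ => by ring
    rw [this, h2]
    linarith
  have h4 : ∑ v, (T A u v - T B u' v) ^ 2 = 0 := le_antisymm h3 (sum_nonneg fun v _ => sq_nonneg _)
  have h5 := (sum_eq_zero_iff_of_nonneg fun v _ => sq_nonneg _).1 h4
  have h6 : ∀ v, T A u v - T B u' v = 0 := fun v =>
    pow_eq_zero_iff (two_ne_zero) |>.1 (h5 v (mem_univ v))
  set y : Finset V → ℝ := fun e => if e ∈ A then u e else -(if e ∈ B then u' e else 0) with hy
  have hyA : ∀ e ∈ A, y e = u e := fun e he => by rw [hy]; simp [he]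
  have hyB : ∀ e ∈ B, y e = (-1) * u' e := fun e he => by
    rw [hy]
    simp only
    rw [if_neg (disjoint_right.1 hd he), if_pos he]; ring
  have h7 : y ∈ Z (A ∪ B) := by
    refine ⟨fun e he => ?_, fun v => ?_⟩
    · rw [mem_union, not_or] at he
      rw [hy]; simp [he.1, he.2]
    · rw [T_union hd, T_congr hyA, T_congr hyB, T_smul]
      linarith [h6 v]
  have h8 := h y h7
  rw [sg_congr hyA, hu1] at h8
  exact one_ne_zero h8

theorem VF_union (A B : Finset (Finset V)) : VF (A ∪ B) = VF A ∪ VF B := by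
  ext v
  simp only [mem_union, mem_VF]
  constructor
  · rintro ⟨e, he | he, hv⟩
    · exact Or.inl ⟨e, he, hv⟩
    · exact Or.inr ⟨e, he, hv⟩
  · rintro (⟨e, he, hv⟩ | ⟨e, he, hv⟩)
    · exact ⟨e, Or.inl he, hv⟩
    · exact ⟨e, Or.inr he, hv⟩

/-- an affine plane cannot be extended by an edge which meets all its edges -/
theorem no_ext {r : ℕ} (hr : 2 ≤ r) {A B : Finset (Finset V)} (hG : Good r (A ∪ B))
    (hd : Disjoint A B) (h1 : ∀ a ∈ A, ∀ b ∈ B, (a ∩ b).card = 1) (hP : Pl r A)
    (hV : VF A = VF (A ∪ B)) {b : Finset V} (hb : b ∈ B) : False := by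
  have hbV : b ⊆ VF A := by
    intro v hv
    rw [hV]
    exact mem_VF.2 ⟨b, mem_union_right _ hb, hv⟩
  have hbc : b.card = r := hG.unif b (mem_union_right _ hb)
  have c1 : A.card = r * (r + 1) := by
    have h2 := count A b
    have h3 : ∑ g ∈ A, (b ∩ g).card = ∑ g ∈ A, 1 := sum_congr rfl fun g hg => by
      rw [inter_comm]; exact h1 g hg b hb
    have h4 : ∑ v ∈ b, (thr A v).card = ∑ v ∈ b, (r + 1) :=
      sum_congr rfl fun v hv => hP.deg v (hbV hv)
    rw [h3, h4, sum_const, sum_const, hbc] at h2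
    simpa using h2
  have c2 : r * A.card = (VF A).card * (r + 1) := by
    have h2 := count A (VF A)
    have h4 : ∑ v ∈ VF A, (thr A v).card = ∑ v ∈ VF A, (r + 1) :=
      sum_congr rfl fun v hv => hP.deg v hv
    rw [h4, sum_const] at h2
    have h3 : ∑ g ∈ A, (VF A ∩ g).card = ∑ g ∈ A, r := by
      refine sum_congr rfl fun g hg => ?_
      rw [inter_eq_right.2 (fun v hv => mem_VF.2 ⟨g, hg, hv⟩), hG.unif g (mem_union_left _ hg)]
    rw [h3, sum_const] at h2
    simp only [smul_eq_mul] at h2
    rw [mul_comm]; exact h2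
  have c3 : (VF A).card = r ^ 2 := by
    rw [c1] at c2
    have : (r ^ 2) * (r + 1) = (VF A).card * (r + 1) := by rw [← c2]; ring
    exact (Nat.eq_of_mul_eq_mul_right (by omega) this).symm
  have h2 : ∃ v ∈ b, True := by
    obtain ⟨v, hv⟩ := card_pos.1 (by rw [hbc]; omega : 0 < b.card)
    exact ⟨v, hv, trivial⟩
  obtain ⟨v, hv, -⟩ := h2
  obtain ⟨u, hu, huv⟩ := Finset.exists_mem_ne (by omega : 1 < b.card) v
  have hvA := hbV hv
  have h3 : (thr A v).biUnion id = VF A := by
    refine eq_of_subset_of_card_le (star_sub A v) ?_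
    rw [star_card hr (hG.mono subset_union_left) hvA, hP.deg v hvA, c3]
    obtain ⟨k, rfl⟩ : ∃ k, r = k + 2 := ⟨r - 2, by omega⟩
    have e1 : k + 2 - 1 = k + 1 := by omega
    rw [e1]
    nlinarith
  have huA := hbV hu
  rw [← h3] at huA
  simp only [mem_biUnion, id] at huA
  obtain ⟨g, hg, hug⟩ := huA
  have hg' := mem_filter.1 hg
  have h4 := h1 g hg'.1 b hb
  have h5 : ({u, v} : Finset V) ⊆ g ∩ b := by
    intro x hx
    rw [mem_insert, mem_singleton] at hx
    rcases hx with rfl | rfl
    · exact mem_inter.2 ⟨hug, hu⟩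
    · exact mem_inter.2 ⟨hg'.2, hv⟩
  have h6 := card_le_card h5
  rw [card_pair huv] at h6
  omega

theorem main_ind {r : ℕ} (hr : 2 ≤ r) : ∀ (n : ℕ) (F : Finset (Finset V)), F.card = n → Good r F →
    r * nu F ≤ (VF F).card ∧ (r * nu F = (VF F).card → Pl r F) := by
  intro n
  induction n using Nat.strong_induction_on with
  | _ n ih =>
  intro F hn hG
  rcases Nat.lt_or_ge F.card 2 with h2 | h2
  · rcases Nat.eq_zero_or_pos F.card with h0 | h0
    · have hF : F = ∅ := card_eq_zero.1 h0
      subst hF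
      have h1 : nu (∅ : Finset (Finset V)) = 0 := nu_zero fun y hy => funext fun e =>
        hy.1 e (notMem_empty e)
      rw [h1]
      refine ⟨by simp, fun _ => ⟨?_, ?_⟩⟩
      · intro v hv
        obtain ⟨e, he, _⟩ := mem_VF.1 hv
        exact absurd he (notMem_empty e)
      · rintro u v x ⟨e, he, _⟩
        exact absurd he (notMem_empty e)
    · obtain ⟨e, rfl⟩ := card_eq_one.1 (by omega : F.card = 1)
      have hec := hG.unif e (mem_singleton_self e)
      obtain ⟨v, hv⟩ := card_pos.1 (by omega : 0 < e.card)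
      have h1 : nu ({e} : Finset (Finset V)) = 0 :=
        star_nu hr hG (v := v) (fun f hf => by rw [mem_singleton.1 hf]; exact hv)
      have h3 : 0 < (VF ({e} : Finset (Finset V))).card := card_pos.2 ⟨v, mem_VF.2 ⟨e, mem_singleton_self e, hv⟩⟩
      rw [h1]
      refine ⟨by simp, fun h => ?_⟩
      rw [mul_zero] at h
      omega
  · obtain ⟨A, B, hA, hB, hd, hAB, hm⟩ := parts hG h2
    subst hAB
    have hcA : A.card < n := by
      rw [← hn, card_union_of_disjoint hd]
      have := card_pos.2 hB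
      omega
    have hcB : B.card < n := by
      rw [← hn, card_union_of_disjoint hd]
      have := card_pos.2 hA
      omega
    obtain ⟨iA, eA⟩ := ih _ hcA A rfl (hG.mono subset_union_left)
    obtain ⟨iB, eB⟩ := ih _ hcB B rfl (hG.mono subset_union_right)
    rcases hm with hm | hm
    · have hV : (VF (A ∪ B)).card = (VF A).card + (VF B).card := by
        rw [VF_union, card_union_of_disjoint]
        rw [disjoint_left]
        intro v hvA hvB
        obtain ⟨a, ha, hva⟩ := mem_VF.1 hvA
        obtain ⟨b, hb, hvb⟩ := mem_VF.1 hvB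
        exact hm a ha b hb ⟨v, mem_inter.2 ⟨hva, hvb⟩⟩
      have hnu := nu_union hd (fun y hy => (part_T hd hm hy.2).1)
      have h3 : r * nu (A ∪ B) ≤ r * nu A + r * nu B := by
        rw [← Nat.mul_add]; exact Nat.mul_le_mul_left _ hnu
      refine ⟨by omega, fun heq => ?_⟩
      have pA := eA (by omega)
      have pB := eB (by omega)
      have key : ∀ v, v ∈ VF A → ∀ e ∈ A ∪ B, v ∈ e → e ∈ A := by
        intro v hv e he hve
        obtain ⟨a, ha, hva⟩ := mem_VF.1 hv
        rcases mem_union.1 he with he | he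
        · exact he
        · exact absurd ⟨v, mem_inter.2 ⟨hva, hve⟩⟩ (hm a ha e he)
      have key' : ∀ v, v ∈ VF B → ∀ e ∈ A ∪ B, v ∈ e → e ∈ B := by
        intro v hv e he hve
        obtain ⟨b, hb, hvb⟩ := mem_VF.1 hv
        rcases mem_union.1 he with he | he
        · exact absurd ⟨v, mem_inter.2 ⟨hve, hvb⟩⟩ (hm e he b hb)
        · exact he
      constructor
      · intro v hv
        rw [VF_union] at hv
        rcases mem_union.1 hv with hv | hv
        · rw [← pA.deg v hv]
          congr 1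
          ext e
          simp only [thr, mem_filter]
          exact ⟨fun h => ⟨key v hv e h.1 h.2, h.2⟩, fun h => ⟨mem_union_left _ h.1, h.2⟩⟩
        · rw [← pB.deg v hv]
          congr 1
          ext e
          simp only [thr, mem_filter]
          exact ⟨fun h => ⟨key' v hv e h.1 h.2, h.2⟩, fun h => ⟨mem_union_right _ h.1, h.2⟩⟩
      · rintro u v x ⟨e, he, hu, hv⟩ ⟨f, hf, hv', hx⟩
        rcases mem_union.1 he with he' | he'
        · have hf' := key v (mem_VF.2 ⟨e, he', hv⟩) f hf hv'
          obtain ⟨g, hg, h⟩ := pA.tr u v x ⟨e, he', hu, hv⟩ ⟨f, hf', hv', hx⟩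
          exact ⟨g, mem_union_left _ hg, h⟩
        · have hf' := key' v (mem_VF.2 ⟨e, he', hv⟩) f hf hv'
          obtain ⟨g, hg, h⟩ := pB.tr u v x ⟨e, he', hu, hv⟩ ⟨f, hf', hv', hx⟩
          exact ⟨g, mem_union_right _ hg, h⟩
    · have h1 := meet_one hG hd hm
      have h1' : ∀ b ∈ B, ∀ a ∈ A, (b ∩ a).card = 1 := fun b hb a ha => by
        rw [inter_comm]; exact h1 a ha b hb
      by_cases hex : ∃ y ∈ Z (A ∪ B), sg A y ≠ 0
      · obtain ⟨y, hy, hs⟩ := hex
        obtain ⟨w, hw, hws, hw0⟩ := make_val hr hG hd h1 hy hs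
        have h3 := VF_card_ge hr hw hws hw0
        have h4 := nu_val hr hG hw
        have h5 : r * nu (A ∪ B) ≤ r * r := Nat.mul_le_mul_left _ h4
        refine ⟨by nlinarith, fun heq => ?_⟩
        have h6 : (VF (A ∪ B)).card = r ^ 2 := by nlinarith
        have h7 : nu (A ∪ B) = r := by
          rw [h6, sq] at heq
          exact Nat.eq_of_mul_eq_mul_left (by omega) heq
        exact val_plane hr hG hw hws hw0 h6 h7
      · push Not at hex
        have hT : ∀ y ∈ Z (A ∪ B), ∀ v, T A y v = 0 := by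
          intro y hy
          have h3 : ∀ v, T B y v = -T A y v := fun v => by
            have := hy.2 v
            rw [T_union hd] at this
            linarith
          have h4 := join_inner h1 y y
          rw [hex y hy, zero_mul] at h4
          have h5 : ∑ v, T A y v ^ 2 = 0 := by
            have : ∑ v, T A y v ^ 2 = -∑ v, T A y v * T B y v := by
              rw [← sum_neg_distrib]
              exact sum_congr rfl fun v _ => by rw [h3]; ring
            rw [this, h4, neg_zero]
          have h6 := (sum_eq_zero_iff_of_nonneg fun v _ => sq_nonneg _).1 h5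
          exact fun v => pow_eq_zero_iff (two_ne_zero) |>.1 (h6 v (mem_univ v))
        have hnu := nu_union hd hT
        have hVA : (VF A).card ≤ (VF (A ∪ B)).card := card_le_card (by
          rw [VF_union]; exact subset_union_left)
        have hVB : (VF B).card ≤ (VF (A ∪ B)).card := card_le_card (by
          rw [VF_union]; exact subset_union_right)
        rcases one_trivial hr hG hd h1 hex with htr | htr
        · have h3 : nu A = 0 := nu_zero htr
          rw [h3, zero_add] at hnu
          have h4 : r * nu (A ∪ B) ≤ r * nu B := Nat.mul_le_mul_left _ hnu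
          refine ⟨by omega, fun heq => ?_⟩
          exfalso
          have h5 : VF B = VF (A ∪ B) := eq_of_subset_of_card_le (by
            rw [VF_union]; exact subset_union_right) (by omega)
          have pB := eB (by omega)
          obtain ⟨a, ha⟩ := hA
          refine no_ext hr (A := B) (B := A) ?_ hd.symm h1' pB ?_ ha
          · rw [union_comm]; exact hG
          · rw [union_comm B A]; exact h5
        · have h3 : nu B = 0 := nu_zero htr
          rw [h3, add_zero] at hnu
          have h4 : r * nu (A ∪ B) ≤ r * nu A := Nat.mul_le_mul_left _ hnu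
          refine ⟨by omega, fun heq => ?_⟩
          exfalso
          have h5 : VF A = VF (A ∪ B) := eq_of_subset_of_card_le (by
            rw [VF_union]; exact subset_union_left) (by omega)
          have pA := eA (by omega)
          obtain ⟨b, hb⟩ := hB
          exact no_ext hr hG hd h1 pA h5 hb

/-- the upper bound and the case of equality -/
theorem bound {r : ℕ} (hr : 2 ≤ r) {F : Finset (Finset V)} (hG : Good r F) :
    r * F.card ≤ (r + 1) * Fintype.card V ∧
    (r * F.card = (r + 1) * Fintype.card V → VF F = univ ∧ Pl r F) := by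
  obtain ⟨h1, h2⟩ := main_ind hr _ F rfl hG
  have h3 := rank F
  have h4 : (VF F).card ≤ Fintype.card V := card_le_univ _
  have h5 : r * F.card ≤ r * (VF F).card + r * nu F := by
    rw [← Nat.mul_add]; exact Nat.mul_le_mul_left _ h3
  have h6 : r * (VF F).card ≤ r * Fintype.card V := Nat.mul_le_mul_left _ h4
  have h7 : (r + 1) * Fintype.card V = r * Fintype.card V + Fintype.card V := by ring
  refine ⟨by omega, fun heq => ?_⟩
  have h8 : (VF F).card = Fintype.card V := by omega
  exact ⟨(card_eq_iff_eq_univ _).1 h8, h2 (by omega)⟩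

end Pool.Agent.R79.LP4
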