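import Pool.Agent.R79.LP4.Main

/-! Copies of `P_4^r`; disjoint unions of affine planes. -/

set_option autoImplicit false
open Finset

namespace Pool.Agent.R79.LP4

/-- the vertices of `P_4^r` -/
abbrev PV (r : ℕ) : Type := Fin 5 ⊕ (Fin 4 × Fin (r - 2))

/-- the edges of `P_4^r` -/
def pathEdge (r : ℕ) (i : Fin 4) : Finset (PV r) :=
  {Sum.inl i.castSucc, Sum.inl i.succ} ∪ univ.image fun j => Sum.inr (i, j)

theorem make_path {n r : ℕ} (hr : 2 ≤ r) {E : Finset (Finset (Fin n))}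
    (hu : ∀ e ∈ E, e.card = r) (hl : ∀ e ∈ E, ∀ f ∈ E, e ≠ f → (e ∩ f).card ≤ 1)
    {a b c d : Finset (Fin n)} (ha : a ∈ E) (hb : b ∈ E) (hc : c ∈ E) (hd : d ∈ E)
    (hab : (a ∩ b).Nonempty) (hbc : (b ∩ c).Nonempty) (hcd : (c ∩ d).Nonempty)
    (hac : ¬ (a ∩ c).Nonempty) (had : ¬ (a ∩ d).Nonempty) (hbd : ¬ (b ∩ d).Nonempty) :
    ∃ f : PV r → Fin n, Function.Injective f ∧ ∀ i, (pathEdge r i).image f ∈ E := by
  obtain ⟨v1, hv1⟩ := hab
  obtain ⟨v2, hv2⟩ := hbc
  obtain ⟨v3, hv3⟩ := hcd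
  rw [mem_inter] at hv1 hv2 hv3
  obtain ⟨v0, hv0, h01⟩ := Finset.exists_mem_ne (by rw [hu a ha]; omega : 1 < a.card) v1
  obtain ⟨v4, hv4, h43⟩ := Finset.exists_mem_ne (by rw [hu d hd]; omega : 1 < d.card) v3
  have dac : ∀ x, x ∈ a → x ∉ c := fun x h1 h2 => hac ⟨x, mem_inter.2 ⟨h1, h2⟩⟩
  have dad : ∀ x, x ∈ a → x ∉ d := fun x h1 h2 => had ⟨x, mem_inter.2 ⟨h1, h2⟩⟩
  have dbd : ∀ x, x ∈ b → x ∉ d := fun x h1 h2 => hbd ⟨x, mem_inter.2 ⟨h1, h2⟩⟩
  have one : ∀ e ∈ E, ∀ f ∈ E, e ≠ f → ∀ x y, x ∈ e → x ∈ f → y ∈ e → y ∈ f → x = y := by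
    intro e he f hf hef x y h1 h2 h3 h4
    exact card_le_one.1 (hl e he f hf hef) x (mem_inter.2 ⟨h1, h2⟩) y (mem_inter.2 ⟨h3, h4⟩)
  have nab : a ≠ b := by rintro rfl; exact dac v2 hv2.1 hv2.2
  have nbc : b ≠ c := by rintro rfl; exact dac v1 hv1.1 hv1.2
  have ncd : c ≠ d := by rintro rfl; exact dbd v2 hv2.1 hv2.2
  have uab : ∀ x, x ∈ a → x ∈ b → x = v1 := fun x h1 h2 => one a ha b hb nab x v1 h1 h2 hv1.1 hv1.2
  have ubc : ∀ x, x ∈ b → x ∈ c → x = v2 := fun x h1 h2 => one b hb c hc nbc x v2 h1 h2 hv2.1 hv2.2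
  have ucd : ∀ x, x ∈ c → x ∈ d → x = v3 := fun x h1 h2 => one c hc d hd ncd x v3 h1 h2 hv3.1 hv3.2
  have h02 : v0 ≠ v2 := by rintro rfl; exact dac _ hv0 hv2.2
  have h03 : v0 ≠ v3 := by rintro rfl; exact dac _ hv0 hv3.1
  have h04 : v0 ≠ v4 := by rintro rfl; exact dad _ hv0 hv4
  have h12 : v1 ≠ v2 := by rintro rfl; exact dac _ hv1.1 hv2.2
  have h13 : v1 ≠ v3 := by rintro rfl; exact dac _ hv1.1 hv3.1
  have h14 : v1 ≠ v4 := by rintro rfl; exact dad _ hv1.1 hv4
  have h23 : v2 ≠ v3 := by rintro rfl; exact dbd _ hv2.1 hv3.2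
  have h24 : v2 ≠ v4 := by rintro rfl; exact dbd _ hv2.1 hv4
  have a2 : v2 ∉ a := fun h => dac _ h hv2.2
  have a3 : v3 ∉ a := fun h => dac _ h hv3.1
  have a4 : v4 ∉ a := fun h => dad _ h hv4
  have b0 : v0 ∉ b := fun h => h01 (uab _ hv0 h)
  have b3 : v3 ∉ b := fun h => dbd _ h hv3.2
  have b4 : v4 ∉ b := fun h => dbd _ h hv4
  have c0 : v0 ∉ c := fun h => dac _ hv0 h
  have c1 : v1 ∉ c := fun h => dac _ hv1.1 h
  have c4 : v4 ∉ c := fun h => h43 (ucd _ h hv4)
  have d0 : v0 ∉ d := fun h => dad _ hv0 h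
  have d1 : v1 ∉ d := fun h => dad _ hv1.1 h
  have d2 : v2 ∉ d := fun h => dbd _ hv2.1 h
  obtain ⟨v, hv⟩ : ∃ v : Fin 5 → Fin n, v = ![v0, v1, v2, v3, v4] := ⟨_, rfl⟩
  obtain ⟨e, he⟩ : ∃ e : Fin 4 → Finset (Fin n), e = ![a, b, c, d] := ⟨_, rfl⟩
  have V0 : v 0 = v0 := by rw [hv]; rfl
  have V1 : v 1 = v1 := by rw [hv]; rfl
  have V2 : v 2 = v2 := by rw [hv]; rfl
  have V3 : v 3 = v3 := by rw [hv]; rfl
  have V4 : v 4 = v4 := by rw [hv]; rfl
  have E0 : e 0 = a := by rw [he]; rfl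
  have E1 : e 1 = b := by rw [he]; rfl
  have E2 : e 2 = c := by rw [he]; rfl
  have E3 : e 3 = d := by rw [he]; rfl
  have hinj : Function.Injective v := by
    intro i j hij
    fin_cases i <;> fin_cases j <;> simp only [Fin.zero_eta, Fin.mk_one, Fin.reduceFinMk, V0, V1, V2, V3, V4] at hij ⊢ <;>
      first
        | rfl
        | exact absurd hij h01
        | exact absurd hij.symm h01
        | exact absurd hij h02
        | exact absurd hij.symm h02
        | exact absurd hij h03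
        | exact absurd hij.symm h03
        | exact absurd hij h04
        | exact absurd hij.symm h04
        | exact absurd hij h12
        | exact absurd hij.symm h12
        | exact absurd hij h13
        | exact absurd hij.symm h13
        | exact absurd hij h14
        | exact absurd hij.symm h14
        | exact absurd hij h23
        | exact absurd hij.symm h23
        | exact absurd hij h24
        | exact absurd hij.symm h24
        | exact absurd hij h43
        | exact absurd hij.symm h43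
  have hE : ∀ i, e i ∈ E := by
    intro i
    fin_cases i <;> simp only [Fin.zero_eta, Fin.mk_one, Fin.reduceFinMk, E0, E1, E2, E3] <;>
      assumption
  have hin : ∀ i : Fin 4, v i.castSucc ∈ e i ∧ v i.succ ∈ e i := by
    intro i
    fin_cases i
    · exact ⟨by change v 0 ∈ e 0; rw [V0, E0]; exact hv0, by change v 1 ∈ e 0; rw [V1, E0]; exact hv1.1⟩
    · exact ⟨by change v 1 ∈ e 1; rw [V1, E1]; exact hv1.2, by change v 2 ∈ e 1; rw [V2, E1]; exact hv2.1⟩
    · exact ⟨by change v 2 ∈ e 2; rw [V2, E2]; exact hv2.2, by change v 3 ∈ e 2; rw [V3, E2]; exact hv3.1⟩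
    · exact ⟨by change v 3 ∈ e 3; rw [V3, E3]; exact hv3.2, by change v 4 ∈ e 3; rw [V4, E3]; exact hv4⟩
  have hvk : ∀ (i : Fin 4) (k : Fin 5), v k ∈ e i → k = i.castSucc ∨ k = i.succ := by
    intro i k h
    fin_cases i <;> fin_cases k <;> simp only [Fin.zero_eta, Fin.mk_one, Fin.reduceFinMk, V0, V1,
      V2, V3, V4, E0, E1, E2, E3] at h <;>
      first
        | (left; rfl)
        | (right; rfl)
        | exact absurd h a2
        | exact absurd h a3
        | exact absurd h a4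
        | exact absurd h b0
        | exact absurd h b3
        | exact absurd h b4
        | exact absurd h c0
        | exact absurd h c1
        | exact absurd h c4
        | exact absurd h d0
        | exact absurd h d1
        | exact absurd h d2
  have hB : ∀ i j : Fin 4, i ≠ j → ∀ x, x ∈ e i → x ∈ e j → ∃ k, x = v k := by
    intro i j hij x h1 h2
    fin_cases i <;> fin_cases j <;> simp only [Fin.zero_eta, Fin.mk_one, Fin.reduceFinMk, E0, E1,
      E2, E3] at h1 h2 <;>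
      first
        | exact absurd rfl hij
        | exact ⟨1, by rw [V1]; exact uab x h1 h2⟩
        | exact ⟨1, by rw [V1]; exact uab x h2 h1⟩
        | exact ⟨2, by rw [V2]; exact ubc x h1 h2⟩
        | exact ⟨2, by rw [V2]; exact ubc x h2 h1⟩
        | exact ⟨3, by rw [V3]; exact ucd x h1 h2⟩
        | exact ⟨3, by rw [V3]; exact ucd x h2 h1⟩
        | exact absurd h2 (dac x h1)
        | exact absurd h1 (dac x h2)
        | exact absurd h2 (dad x h1)
        | exact absurd h1 (dad x h2)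
        | exact absurd h2 (dbd x h1)
        | exact absurd h1 (dbd x h2)
  have hrest : ∀ i : Fin 4, (e i \ {v i.castSucc, v i.succ}).card = r - 2 := by
    intro i
    have hne : v i.castSucc ≠ v i.succ := fun h => by
      have := hinj h
      exact absurd this (Fin.castSucc_lt_succ (i := i)).ne
    rw [card_sdiff_of_subset, card_pair hne, hu _ (hE i)]
    intro x hx
    rw [mem_insert, mem_singleton] at hx
    rcases hx with rfl | rfl
    · exact (hin i).1
    · exact (hin i).2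
  obtain ⟨g, hg⟩ : ∃ g : Fin 4 → Fin (r - 2) → Fin n,
      g = fun i j => (e i \ {v i.castSucc, v i.succ}).orderEmbOfFin (hrest i) j := ⟨_, rfl⟩
  have gm : ∀ i j, g i j ∈ e i \ {v i.castSucc, v i.succ} := fun i j => by
    rw [hg]; exact orderEmbOfFin_mem _ (hrest i) j
  have gv : ∀ i j k, g i j ≠ v k := by
    intro i j k h
    have h1 := gm i j
    rw [h, mem_sdiff, mem_insert, mem_singleton, not_or] at h1
    rcases hvk i k h1.1 with h2 | h2
    · exact h1.2.1 (by rw [h2])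
    · exact h1.2.2 (by rw [h2])
  have gi : ∀ i, Function.Injective (g i) := fun i => by
    rw [hg]; exact ((e i \ {v i.castSucc, v i.succ}).orderEmbOfFin (hrest i)).injective
  refine ⟨Sum.elim v fun p => g p.1 p.2, ?_, ?_⟩
  · rintro (k | ⟨i, j⟩) (l | ⟨i', j'⟩) h
    · exact congrArg _ (hinj h)
    · exact absurd h.symm (gv i' j' k)
    · exact absurd h (gv i j l)
    · simp only [Sum.elim_inr] at h
      by_cases hii : i = i'
      · subst hii
        rw [gi i h]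
      · exfalso
        have h1 := gm i j
        have h2 := gm i' j'
        obtain ⟨k, hk⟩ := hB i i' hii (g i j) (mem_sdiff.1 h1).1 (by rw [h]; exact (mem_sdiff.1 h2).1)
        exact gv i j k hk
  · intro i
    have : (pathEdge r i).image (Sum.elim v fun p => g p.1 p.2) = e i := by
      have himg : (univ : Finset (Fin (r - 2))).image (g i) = e i \ {v i.castSucc, v i.succ} := by
        refine eq_of_subset_of_card_le ?_ ?_
        · intro x hx
          obtain ⟨j, -, rfl⟩ := mem_image.1 hx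
          exact gm i j
        · rw [hrest i, card_image_of_injective _ (gi i), card_univ, Fintype.card_fin]
      unfold pathEdge
      rw [image_union, image_image, image_insert, image_singleton, Sum.elim_inl, Sum.elim_inl]
      have : (Sum.elim v fun p => g p.1 p.2) ∘ (fun j : Fin (r - 2) => (Sum.inr (i, j) : PV r))
          = g i := rfl
      rw [this, himg]
      ext x
      rw [mem_union, mem_sdiff, mem_insert, mem_singleton]
      constructor
      · rintro ((rfl | rfl) | h)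
        · exact (hin i).1
        · exact (hin i).2
        · exact h.1
      · intro h
        by_cases h1 : x = v i.castSucc ∨ x = v i.succ
        · exact Or.inl h1
        · exact Or.inr ⟨h, h1⟩
    rw [this]
    exact hE i

variable {V : Type} [Fintype V] [DecidableEq V]

/-- the classes of collinearity -/
theorem planes_of {r : ℕ} (hr : 2 ≤ r) {F : Finset (Finset V)} (hG : Good r F)
    (hV : VF F = univ) (hP : Pl r F) :
    ∃ P : Finpartition (univ : Finset V), (∀ B ∈ P.parts, B.card = r ^ 2) ∧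
      (∀ B ∈ P.parts, ∀ x ∈ B, ∀ y ∈ B, x ≠ y → ∃! e, e ∈ F ∧ x ∈ e ∧ y ∈ e) ∧
      (∀ e ∈ F, ∃ B ∈ P.parts, e ⊆ B) := by
  classical
  have hrefl : ∀ v, con F v v := fun v => by
    obtain ⟨e, he, hv⟩ := mem_VF.1 (by rw [hV]; exact mem_univ v : v ∈ VF F)
    exact ⟨e, he, hv, hv⟩
  have hsymm : ∀ u v, con F u v → con F v u := fun u v ⟨e, he, h1, h2⟩ => ⟨e, he, h2, h1⟩
  let s : Setoid V := ⟨con F, hrefl, fun {u v} h => hsymm u v h, fun {u v w} h1 h2 => hP.tr u v w h1 h2⟩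
  have hcls : ∀ v, univ.filter (fun u => con F v u) = (thr F v).biUnion id := by
    intro v
    ext u
    simp only [mem_filter, mem_univ, true_and, mem_biUnion, id, thr]
    constructor
    · rintro ⟨e, he, h1, h2⟩
      exact ⟨e, ⟨he, h1⟩, h2⟩
    · rintro ⟨e, ⟨he, h1⟩, h2⟩
      exact ⟨e, he, h1, h2⟩
  have hcard : ∀ v, ((thr F v).biUnion id).card = r ^ 2 := by
    intro v
    have hv : v ∈ VF F := by rw [hV]; exact mem_univ v
    rw [star_card hr hG hv, hP.deg v hv]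
    obtain ⟨k, rfl⟩ : ∃ k, r = k + 2 := ⟨r - 2, by omega⟩
    have e1 : k + 2 - 1 = k + 1 := by omega
    rw [e1]
    ring
  let P := Finpartition.ofSetoid s
  have hpart : ∀ B, B ∈ P.parts → ∀ x ∈ B, ∀ y, y ∈ B ↔ con F x y := by
    intro B hB x hx y
    have h1 : P.part x = B := P.part_eq_of_mem hB hx
    rw [← h1]
    exact Finpartition.mem_part_ofSetoid_iff_rel
  refine ⟨P, ?_, ?_, ?_⟩
  · intro B hB
    obtain ⟨x, hx⟩ := P.nonempty_of_mem_parts hB
    have : B = univ.filter (fun u => con F x u) := by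
      ext y
      rw [hpart B hB x hx y, mem_filter]
      exact ⟨fun h => ⟨mem_univ _, h⟩, fun h => h.2⟩
    rw [this, hcls, hcard]
  · intro B hB x hx y hy hxy
    obtain ⟨e, he, h1, h2⟩ := (hpart B hB x hx y).1 hy
    refine ⟨e, ⟨he, h1, h2⟩, ?_⟩
    rintro f ⟨hf, h3, h4⟩
    by_contra hne
    exact hxy (card_le_one.1 (hG.lin f hf e he hne) x (mem_inter.2 ⟨h3, h1⟩) y
      (mem_inter.2 ⟨h4, h2⟩))
  · intro e he
    have hc := hG.unif e he
    obtain ⟨x, hx⟩ := card_pos.1 (by omega : 0 < e.card)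
    refine ⟨P.part x, P.part_mem.2 (mem_univ x), fun y hy => ?_⟩
    exact Finpartition.mem_part_ofSetoid_iff_rel.2 ⟨e, he, hx, hy⟩

theorem deg_of_planes {r : ℕ} (hr : 2 ≤ r) {F : Finset (Finset V)}
    (hu : ∀ e ∈ F, e.card = r) (hl : ∀ e ∈ F, ∀ f ∈ F, e ≠ f → (e ∩ f).card ≤ 1)
    (h : ∃ P : Finpartition (univ : Finset V), (∀ B ∈ P.parts, B.card = r ^ 2) ∧
      (∀ B ∈ P.parts, ∀ x ∈ B, ∀ y ∈ B, x ≠ y → ∃! e, e ∈ F ∧ x ∈ e ∧ y ∈ e) ∧
      (∀ e ∈ F, ∃ B ∈ P.parts, e ⊆ B)) : ∀ v : V, (thr F v).card = r + 1 := by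
  obtain ⟨P, h1, h2, h3⟩ := h
  intro v
  obtain ⟨B, hB, hvB⟩ : ∃ B ∈ P.parts, v ∈ B := ⟨P.part v, P.part_mem.2 (mem_univ v), P.mem_part (mem_univ v)⟩
  have e1 : B.erase v = (thr F v).biUnion fun g => g.erase v := by
    ext x
    simp only [mem_erase, mem_biUnion]
    constructor
    · rintro ⟨hxv, hxB⟩
      obtain ⟨e, ⟨he, hx, hv⟩, -⟩ := h2 B hB x hxB v hvB hxv
      exact ⟨e, mem_filter.2 ⟨he, hv⟩, hxv, hx⟩
    · rintro ⟨g, hg, hxv, hxg⟩
      have hg' := mem_filter.1 hg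
      obtain ⟨B', hB', hgB'⟩ := h3 g hg'.1
      have : B' = B := P.eq_of_mem_parts hB' hB (hgB' hg'.2) hvB
      rw [← this]
      exact ⟨hxv, hgB' hxg⟩
  have e2 := congrArg card e1
  rw [card_erase_of_mem hvB, h1 B hB, card_biUnion] at e2
  · rw [sum_const_nat (m := r - 1) (fun g hg => by
      have := mem_filter.1 hg
      rw [card_erase_of_mem this.2, hu g this.1])] at e2
    obtain ⟨k, rfl⟩ : ∃ k, r = k + 2 := ⟨r - 2, by omega⟩
    have e3 : k + 2 - 1 = k + 1 := by omega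
    rw [e3] at e2
    have e4 : (k + 2) ^ 2 - 1 = (k + 3) * (k + 1) := by
      have : (k + 2) ^ 2 = (k + 3) * (k + 1) + 1 := by ring
      omega
    rw [e4] at e2
    exact (Nat.eq_of_mul_eq_mul_right (by omega) e2).symm
  · intro g hg h hh hne
    rw [Function.onFun, disjoint_left]
    intro x hx hx'
    rw [mem_erase] at hx hx'
    have hg' := mem_filter.1 hg
    have hh' := mem_filter.1 hh
    exact hx.1 (card_le_one.1 (hl g hg'.1 h hh'.1 hne) x (mem_inter.2 ⟨hx.2, hx'.2⟩) v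
      (mem_inter.2 ⟨hg'.2, hh'.2⟩))

theorem card_of_planes {r : ℕ} (hr : 2 ≤ r) {F : Finset (Finset V)}
    (hu : ∀ e ∈ F, e.card = r) (hl : ∀ e ∈ F, ∀ f ∈ F, e ≠ f → (e ∩ f).card ≤ 1)
    (h : ∃ P : Finpartition (univ : Finset V), (∀ B ∈ P.parts, B.card = r ^ 2) ∧
      (∀ B ∈ P.parts, ∀ x ∈ B, ∀ y ∈ B, x ≠ y → ∃! e, e ∈ F ∧ x ∈ e ∧ y ∈ e) ∧
      (∀ e ∈ F, ∃ B ∈ P.parts, e ⊆ B)) : r * F.card = (r + 1) * Fintype.card V := by
  have hdeg := deg_of_planes hr hu hl h
  have h4 := count F univ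
  have h5 : ∑ g ∈ F, (univ ∩ g).card = ∑ g ∈ F, r := sum_congr rfl fun g hg => by
    rw [univ_inter, hu g hg]
  have h6 : ∑ v ∈ (univ : Finset V), (thr F v).card = ∑ v ∈ (univ : Finset V), (r + 1) :=
    sum_congr rfl fun v _ => hdeg v
  rw [h5, h6, sum_const, sum_const, card_univ] at h4
  simp only [smul_eq_mul] at h4
  rw [mul_comm, h4, mul_comm]

/-- a disjoint union of affine planes contains no linear path with four edges -/
theorem planes_free {r : ℕ} (hr : 2 ≤ r) {F : Finset (Finset V)} 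
    (hu : ∀ e ∈ F, e.card = r) (hl : ∀ e ∈ F, ∀ f ∈ F, e ≠ f → (e ∩ f).card ≤ 1)
    (hdeg : ∀ v : V, (thr F v).card = r + 1)
    (h : ∃ P : Finpartition (univ : Finset V), 
      (∀ B ∈ P.parts, ∀ x ∈ B, ∀ y ∈ B, x ≠ y → ∃! e, e ∈ F ∧ x ∈ e ∧ y ∈ e) ∧
      (∀ e ∈ F, ∃ B ∈ P.parts, e ⊆ B))
    {a b c d : Finset V} (ha : a ∈ F) (hb : b ∈ F) (hc : c ∈ F) (hd : d ∈ F)
    (hab : (a ∩ b).Nonempty) (hbc : (b ∩ c).Nonempty) (hcd : (c ∩ d).Nonempty)
    (hac : ¬ (a ∩ c).Nonempty) (had : ¬ (a ∩ d).Nonempty) (hne : c ≠ d) : False := by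
  obtain ⟨P, h2, h3⟩ := h
  obtain ⟨x, hx⟩ := hcd
  rw [mem_inter] at hx
  obtain ⟨p, hp⟩ := hab
  obtain ⟨q, hq⟩ := hbc
  rw [mem_inter] at hp hq
  obtain ⟨B, hB, hcB⟩ := h3 c hc
  have haB : a ⊆ B := by
    obtain ⟨B1, hB1, hb1⟩ := h3 b hb
    have e1 : B1 = B := P.eq_of_mem_parts hB1 hB (hb1 hq.1) (hcB hq.2)
    obtain ⟨B2, hB2, hb2⟩ := h3 a ha
    have e2 : B2 = B1 := P.eq_of_mem_parts hB2 hB1 (hb2 hp.1) (hb1 hp.2)
    rw [← e1, ← e2]; exact hb2
  have hxa : x ∉ a := fun h => hac ⟨x, mem_inter.2 ⟨h, hx.1⟩⟩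
  -- the edges through `x` and the points of `a`
  have hex : ∀ u ∈ a, ∃ g, g ∈ F ∧ x ∈ g ∧ u ∈ g := fun u hu' => by
    obtain ⟨g, hg, -⟩ := h2 B hB x (hcB hx.1) u (haB hu') (by rintro rfl; exact hxa hu')
    exact ⟨g, hg⟩
  choose! g hg using hex
  have hginj : Set.InjOn g (a : Set V) := by
    intro u hu' u' hu'' huu
    by_contra hne'
    have h4 := hg u hu'
    have h5 := hg u' hu''
    rw [← huu] at h5
    have h6 : g u ≠ a := by
      intro h
      apply hxa
      rw [← h]; exact h4.2.1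
    exact hne' (card_le_one.1 (hl _ h4.1 a ha h6) u (mem_inter.2 ⟨h4.2.2, hu'⟩) u'
      (mem_inter.2 ⟨h5.2.2, hu''⟩))
  have hsub : insert c (insert d (a.image g)) ⊆ thr F x := by
    intro f hf
    rw [mem_insert, mem_insert, mem_image] at hf
    rcases hf with rfl | rfl | ⟨u, hu', rfl⟩
    · exact mem_filter.2 ⟨hc, hx.1⟩
    · exact mem_filter.2 ⟨hd, hx.2⟩
    · exact mem_filter.2 ⟨(hg u hu').1, (hg u hu').2.1⟩
  have hdn : d ∉ a.image g := by
    rw [mem_image]
    rintro ⟨u, hu', he⟩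
    exact had ⟨u, mem_inter.2 ⟨hu', by rw [← he]; exact (hg u hu').2.2⟩⟩
  have hcn : c ∉ insert d (a.image g) := by
    rw [mem_insert, mem_image, not_or]
    refine ⟨hne, ?_⟩
    rintro ⟨u, hu', he⟩
    exact hac ⟨u, mem_inter.2 ⟨hu', by rw [← he]; exact (hg u hu').2.2⟩⟩
  have h7 := card_le_card hsub
  rw [card_insert_of_notMem hcn, card_insert_of_notMem hdn, card_image_of_injOn hginj, hu a ha,
    hdeg] at h7
  omega

end Pool.Agent.R79.LP4
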