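import Mathlib

/-! A graph without an induced path on four vertices is a disjoint union or a join of two parts. -/

set_option autoImplicit false
open Finset

namespace Pool.Agent.R79.LP4

variable {α : Type} [DecidableEq α]

/-- no induced path with four vertices in the set `F` -/
def Free (R : α → α → Prop) (F : Finset α) : Prop :=
  ∀ a ∈ F, ∀ b ∈ F, ∀ c ∈ F, ∀ d ∈ F, a ≠ b → a ≠ c → a ≠ d → b ≠ c → b ≠ d → c ≠ d →
    R a b → R b c → R c d → ¬ R a c → ¬ R a d → ¬ R b d → False

theorem Free.mono {R : α → α → Prop} {F G : Finset α} (h : Free R F) (hG : G ⊆ F) : Free R G :=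
  fun a ha b hb c hc d hd => h a (hG ha) b (hG hb) c (hG hc) d (hG hd)

theorem Free.compl {R : α → α → Prop} (hs : ∀ a b, R a b → R b a) {F : Finset α}
    (h : Free R F) : Free (fun a b => ¬ R a b) F := by
  intro a ha b hb c hc d hd hab hac had hbc hbd hcd h1 h2 h3 h4 h5 h6
  rw [not_not] at h4 h5 h6
  exact h c hc a ha d hd b hb hac.symm hcd hbc.symm had hab hbd.symm (hs _ _ h4) h5 (hs _ _ h6)
    h3 (fun h => h2 (hs _ _ h)) h1

theorem step1 (R : α → α → Prop) (hs : ∀ a b, R a b → R b a) (A B : Finset α) (v : α)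
    (hv : v ∉ A ∪ B) (hd : Disjoint A B) (h : ∀ a ∈ A, ∀ b ∈ B, ¬ R a b)
    (hF : Free R (insert v (A ∪ B))) (b : α) (hb : b ∈ B) (hvb : R v b)
    (u : α) (hu : u ∈ A) (hvu : ¬ R v u) :
    ∃ A' B' : Finset α, A'.Nonempty ∧ B'.Nonempty ∧ Disjoint A' B' ∧
      A' ∪ B' = insert v (A ∪ B) ∧ ((∀ a ∈ A', ∀ b ∈ B', ¬ R a b) ∨ (∀ a ∈ A', ∀ b ∈ B', R a b)) := by
  classical
  refine ⟨A.filter (fun a => ¬ R v a), insert v (A.filter (fun a => R v a) ∪ B),
    ⟨u, mem_filter.2 ⟨hu, hvu⟩⟩, ⟨v, mem_insert_self _ _⟩, ?_, ?_, Or.inl ?_⟩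
  · rw [disjoint_left]
    intro x hx hx'
    rw [mem_filter] at hx
    rw [mem_insert, mem_union, mem_filter] at hx'
    rcases hx' with rfl | h' | h'
    · exact hv (mem_union_left _ hx.1)
    · exact hx.2 h'.2
    · exact disjoint_left.1 hd hx.1 h'
  · ext x
    simp only [mem_union, mem_filter, mem_insert]
    tauto
  · intro a ha x hx hax
    rw [mem_filter] at ha
    rw [mem_insert, mem_union, mem_filter] at hx
    have hvA : v ∉ A := fun h => hv (mem_union_left _ h)
    have hvB : v ∉ B := fun h => hv (mem_union_right _ h)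
    have hav : ¬ R a v := fun h => ha.2 (hs _ _ h)
    rcases hx with rfl | h' | h'
    · exact hav hax
    · refine hF a ?_ x ?_ v (mem_insert_self _ _) b ?_ ?_ ?_ ?_ ?_ ?_ ?_ hax (hs _ _ h'.2) hvb hav
        (h a ha.1 b hb) (h x h'.1 b hb)
      · exact mem_insert_of_mem (mem_union_left _ ha.1)
      · exact mem_insert_of_mem (mem_union_left _ h'.1)
      · exact mem_insert_of_mem (mem_union_right _ hb)
      · rintro rfl; exact ha.2 h'.2
      · rintro rfl; exact hvA ha.1
      · rintro rfl; exact disjoint_left.1 hd ha.1 hb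
      · rintro rfl; exact hvA h'.1
      · rintro rfl; exact disjoint_left.1 hd h'.1 hb
      · rintro rfl; exact hvB hb
    · exact h a ha.1 x h' hax

theorem step (R : α → α → Prop) (hs : ∀ a b, R a b → R b a) (A B : Finset α) (v : α)
    (hv : v ∉ A ∪ B) (hA : A.Nonempty) (hB : B.Nonempty) (hd : Disjoint A B)
    (h : ∀ a ∈ A, ∀ b ∈ B, ¬ R a b) (hF : Free R (insert v (A ∪ B))) :
    ∃ A' B' : Finset α, A'.Nonempty ∧ B'.Nonempty ∧ Disjoint A' B' ∧
      A' ∪ B' = insert v (A ∪ B) ∧ ((∀ a ∈ A', ∀ b ∈ B', ¬ R a b) ∨ (∀ a ∈ A', ∀ b ∈ B', R a b)) := by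
  have hvA : v ∉ A := fun h => hv (mem_union_left _ h)
  have hvB : v ∉ B := fun h => hv (mem_union_right _ h)
  by_cases h1 : ∀ a ∈ A, ¬ R v a
  · refine ⟨A, insert v B, hA, ⟨v, mem_insert_self _ _⟩, ?_, ?_, Or.inl ?_⟩
    · rw [disjoint_insert_right]; exact ⟨hvA, hd⟩
    · ext x; simp only [mem_union, mem_insert]; tauto
    · intro a ha x hx hax
      rw [mem_insert] at hx
      rcases hx with rfl | hx
      · exact h1 a ha (hs _ _ hax)
      · exact h a ha x hx hax
  by_cases h2 : ∀ b ∈ B, ¬ R v b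
  · refine ⟨insert v A, B, ⟨v, mem_insert_self _ _⟩, hB, ?_, ?_, Or.inl ?_⟩
    · rw [disjoint_insert_left]; exact ⟨hvB, hd⟩
    · ext x; simp only [mem_union, mem_insert]; tauto
    · intro a ha x hx hax
      rw [mem_insert] at ha
      rcases ha with rfl | ha
      · exact h2 x hx hax
      · exact h a ha x hx hax
  by_cases h3 : ∀ u ∈ A ∪ B, R v u
  · refine ⟨{v}, A ∪ B, ⟨v, mem_singleton_self _⟩, hA.mono subset_union_left, ?_, ?_, Or.inr ?_⟩
    · rw [disjoint_singleton_left]; exact hv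
    · ext x; simp only [mem_union, mem_insert, mem_singleton]
    · intro a ha x hx
      rw [mem_singleton] at ha
      rw [ha]; exact h3 x hx
  push Not at h1 h2 h3
  obtain ⟨a, ha, hva⟩ := h1
  obtain ⟨b, hb, hvb⟩ := h2
  obtain ⟨u, hu, hvu⟩ := h3
  rw [mem_union] at hu
  rcases hu with hu | hu
  · exact step1 R hs A B v hv hd h hF b hb hvb u hu hvu
  · have hv' : v ∉ B ∪ A := by rw [union_comm]; exact hv
    have hF' : Free R (insert v (B ∪ A)) := by rw [union_comm B A]; exact hF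
    have := step1 R hs B A v hv' hd.symm (fun b hb a ha hab => h a ha b hb (hs _ _ hab)) hF'
      a ha hva u hu hvu
    rwa [union_comm B A] at this

theorem split (R : α → α → Prop) (hs : ∀ a b, R a b → R b a) :
    ∀ (n : ℕ) (F : Finset α), F.card = n → 2 ≤ n → Free R F →
    ∃ A B : Finset α, A.Nonempty ∧ B.Nonempty ∧ Disjoint A B ∧
      A ∪ B = F ∧ ((∀ a ∈ A, ∀ b ∈ B, ¬ R a b) ∨ (∀ a ∈ A, ∀ b ∈ B, R a b)) := by
  intro n
  induction n with
  | zero => intro F _ h; omega
  | succ n ih =>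
    intro F hF hn hfree
    obtain ⟨v, F', hvF, hins, hcard⟩ := Finset.card_eq_succ.1 hF
    rcases Nat.lt_or_ge n 2 with h2 | h2
    · have h1 : n = 1 := by omega
      subst h1
      obtain ⟨u, rfl⟩ := card_eq_one.1 hcard
      rw [mem_singleton] at hvF
      refine ⟨{v}, {u}, ⟨v, mem_singleton_self _⟩, ⟨u, mem_singleton_self _⟩, ?_, ?_, ?_⟩
      · rw [disjoint_singleton]; exact hvF
      · rw [← hins]; rfl
      · simp only [mem_singleton, forall_eq]
        tauto
    · obtain ⟨A, B, hA, hB, hd, hAB, h⟩ := ih F' hcard h2 (hfree.mono (by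
        rw [← hins]; exact subset_insert _ _))
      have hv : v ∉ A ∪ B := by rw [hAB]; exact hvF
      have hF' : Free R (insert v (A ∪ B)) := by rw [hAB, hins]; exact hfree
      rw [← hins, ← hAB]
      rcases h with h | h
      · exact step R hs A B v hv hA hB hd h hF'
      · obtain ⟨A', B', hA', hB', hd', hAB', h'⟩ := step (fun a b => ¬ R a b)
          (fun a b hab hba => hab (hs _ _ hba)) A B v hv hA hB hd
          (fun a ha b hb hab => hab (h a ha b hb)) (hF'.compl hs)
        refine ⟨A', B', hA', hB', hd', hAB', ?_⟩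
        rcases h' with h' | h'
        · exact Or.inr fun a ha b hb => not_not.1 (h' a ha b hb)
        · exact Or.inl h'

end Pool.Agent.R79.LP4
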