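import Pool.Agent.R79.LP4.Basic

/-! The special vector of a join and the bound `r` for the dimension of the kernel. -/

set_option autoImplicit false
open Finset

namespace Pool.Agent.R79.LP4

variable {V : Type} [Fintype V] [DecidableEq V]

/-- a unit vector with sum one on every edge -/
structure Val (F : Finset (Finset V)) (w : V → ℝ) : Prop where
  norm : ∑ v, w v ^ 2 = 1
  one : ∀ e ∈ F, ∑ v ∈ e, w v = 1

theorem Val.mono {F G : Finset (Finset V)} {w : V → ℝ} (h : Val F w) (hG : G ⊆ F) : Val G w :=
  ⟨h.norm, fun e he => h.one e (hG he)⟩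

theorem val_pair {F : Finset (Finset V)} {w : V → ℝ} (h : Val F w) (y : Finset V → ℝ) :
    ∑ v, T F y v * w v = sg F y := by
  rw [pairW]
  exact sum_congr rfl fun f hf => by rw [h.one f hf, mul_one]

theorem val_lower {F : Finset (Finset V)} {w : V → ℝ} (h : Val F w) (y : Finset V → ℝ) :
    sg F y ^ 2 ≤ ∑ v, T F y v ^ 2 := by
  have h1 : 0 ≤ ∑ v, (T F y v - sg F y * w v) ^ 2 := sum_nonneg fun v _ => sq_nonneg _
  have h2 : ∑ v, (T F y v - sg F y * w v) ^ 2
      = ∑ v, T F y v ^ 2 - 2 * sg F y * ∑ v, T F y v * w v + sg F y ^ 2 * ∑ v, w v ^ 2 := by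
    rw [mul_sum, mul_sum, ← sum_sub_distrib, ← sum_add_distrib]
    exact sum_congr rfl fun v _ => by ring
  rw [h2, val_pair h, h.norm] at h1
  nlinarith

/-- kernel vectors of a part of a disjoint union -/
theorem Z_part {r : ℕ} (hr : 2 ≤ r) {F A : Finset (Finset V)} (hG : Good r F) {w : V → ℝ}
    (hw : Val F w) (hA : A ⊆ F) {b : Finset V} (hb : b ∈ F)
    (hd : ∀ a ∈ A, ¬ (a ∩ b).Nonempty) {z : Finset V → ℝ} (hz : ∀ v, T A z v = 0) :
    ∀ e ∈ A, z e = 0 := by
  by_contra hcon
  push Not at hcon
  obtain ⟨e0, he0, hze0⟩ := hcon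
  have hrr : (2 : ℝ) ≤ r := by exact_mod_cast hr
  have hbA : b ∉ A := by
    intro h
    have := hd b h
    rw [inter_self] at this
    have h2 := hG.unif b hb
    exact this (card_pos.1 (by omega))
  set s := sg A (fun e => |z e|) with hs
  have hspos : 0 < s := by
    rw [hs]
    unfold sg
    exact sum_pos' (fun e _ => abs_nonneg _) ⟨e0, he0, abs_pos.2 hze0⟩
  set y : Finset V → ℝ := fun e => if e = b then s / r else |z e| with hy
  have hyA : ∀ e ∈ A, y e = |z e| := fun e he => by
    rw [hy]
    simp only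
    rw [if_neg (by rintro rfl; exact hbA he)]
  have hyb : y b = s / r := by rw [hy]; simp
  have hT : ∀ v, T (insert b A) y v = (if v ∈ b then s / r else 0) + T A (fun e => |z e|) v := by
    intro v
    unfold T
    rw [sum_insert hbA, hyb]
    congr 1
    exact sum_congr rfl fun e he => by rw [hyA e he]
  have hS : sg (insert b A) y = s / r + s := by
    unfold sg
    rw [sum_insert hbA, hyb]
    congr 1
    rw [hs]
    exact sum_congr rfl fun e he => hyA e he
  have h1 := val_lower (hw.mono (insert_subset hb hA)) y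
  rw [hS] at h1
  have h2 := abs_le hr (hG.mono hA) hz
  have h3 : ∑ v ∈ b, T A (fun e => |z e|) v = 0 := by
    rw [pairE]
    refine sum_eq_zero fun f hf => ?_
    have : (b ∩ f).card = 0 := by
      rw [card_eq_zero, inter_comm]
      exact not_nonempty_iff_eq_empty.1 (hd f hf)
    rw [this, Nat.cast_zero, mul_zero]
  have h4 : ∑ v, T (insert b A) y v ^ 2
      = r * (s / r) ^ 2 + 2 * (s / r) * (∑ v ∈ b, T A (fun e => |z e|) v)
        + ∑ v, T A (fun e => |z e|) v ^ 2 := by
    have e1 : (r : ℝ) * (s / r) ^ 2 = ∑ v, if v ∈ b then (s / r) ^ 2 else 0 := by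
      rw [sum_ite_mem, univ_inter, sum_const, hG.unif b hb, nsmul_eq_mul]
    have e2 : 2 * (s / r) * (∑ v ∈ b, T A (fun e => |z e|) v)
        = ∑ v, if v ∈ b then 2 * (s / r) * T A (fun e => |z e|) v else 0 := by
      rw [sum_ite_mem, univ_inter, mul_sum]
    rw [e1, e2, ← sum_add_distrib, ← sum_add_distrib]
    refine sum_congr rfl fun v _ => ?_
    rw [hT]
    split_ifs <;> ring
  rw [h4, h3] at h1
  rw [← hs] at h2
  have h5 : (s / r + s) ^ 2 ≤ r * (s / r) ^ 2 + s ^ 2 := by linarith
  have h6 : (r : ℝ) * (s / r) ^ 2 = s ^ 2 / r := by field_simp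
  rw [h6] at h5
  have h7 : 0 < s ^ 2 / r := by positivity
  have h8 : (s / r + s) ^ 2 = (s / r) ^ 2 + 2 * (s ^ 2 / r) + s ^ 2 := by field_simp; ring
  rw [h8] at h5
  have h9 : 0 ≤ (s / r) ^ 2 := sq_nonneg _
  linarith

/-- the space attached to a special vector splits along a join -/
theorem join_Y {A B : Finset (Finset V)} (hd : Disjoint A B)
    (h1 : ∀ a ∈ A, ∀ b ∈ B, (a ∩ b).card = 1) {w : V → ℝ} (hw : Val (A ∪ B) w)
    {y : Finset V → ℝ} (hy : ∀ v, T (A ∪ B) y v = sg (A ∪ B) y * w v) :
    (∀ v, T A y v = sg A y * w v) ∧ (∀ v, T B y v = sg B y * w v) := by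
  have hA : ∀ v, T A y v - sg A y * w v = -(T B y v - sg B y * w v) := by
    intro v
    have := hy v
    rw [T_union hd, sg_union hd] at this
    linarith
  have h2 : ∑ v, (T A y v - sg A y * w v) * (T B y v - sg B y * w v) = 0 := by
    have e : ∑ v, (T A y v - sg A y * w v) * (T B y v - sg B y * w v)
        = ∑ v, T A y v * T B y v - sg B y * ∑ v, T A y v * w v - sg A y * ∑ v, T B y v * w v
          + sg A y * sg B y * ∑ v, w v ^ 2 := by
      rw [mul_sum, mul_sum, mul_sum, ← sum_sub_distrib, ← sum_sub_distrib, ← sum_add_distrib]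
      exact sum_congr rfl fun v _ => by ring
    rw [e, join_inner h1, val_pair (hw.mono subset_union_left), val_pair (hw.mono subset_union_right),
      hw.norm]
    ring
  have h3 : ∑ v, (T A y v - sg A y * w v) ^ 2 = 0 := by
    have : ∑ v, (T A y v - sg A y * w v) ^ 2
        = -∑ v, (T A y v - sg A y * w v) * (T B y v - sg B y * w v) := by
      rw [← sum_neg_distrib]
      refine sum_congr rfl fun v _ => ?_
      rw [sq]
      nth_rewrite 2 [hA v]
      ring
    rw [this, h2, neg_zero]
  have h4 := (sum_eq_zero_iff_of_nonneg fun v _ => sq_nonneg _).1 h3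
  have h5 : ∀ v, T A y v - sg A y * w v = 0 := fun v => pow_eq_zero_iff (two_ne_zero) |>.1 (h4 v (mem_univ v))
  refine ⟨fun v => by linarith [h5 v], fun v => ?_⟩
  have := hA v
  rw [h5 v] at this
  linarith

theorem part_T {A B : Finset (Finset V)} (hd : Disjoint A B)
    (hm : ∀ a ∈ A, ∀ b ∈ B, ¬ (a ∩ b).Nonempty) {y : Finset V → ℝ}
    (hy : ∀ v, T (A ∪ B) y v = 0) : (∀ v, T A y v = 0) ∧ (∀ v, T B y v = 0) := by
  have key : ∀ v, T A y v = 0 ∨ T B y v = 0 := by
    intro v
    by_cases hA : v ∈ VF A
    · right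
      refine T_out (fun hB => ?_) y
      obtain ⟨a, ha, hva⟩ := mem_VF.1 hA
      obtain ⟨b, hb, hvb⟩ := mem_VF.1 hB
      exact hm a ha b hb ⟨v, mem_inter.2 ⟨hva, hvb⟩⟩
    · exact Or.inl (T_out hA y)
  constructor <;> intro v <;> have h := hy v <;> rw [T_union hd] at h <;> rcases key v with h1 | h1 <;>
    rw [h1] at h <;> linarith

theorem meets_symm (a b : Finset V) : (a ∩ b).Nonempty → (b ∩ a).Nonempty := by
  rw [inter_comm]; exact id

/-- decomposition of a family with at least two members -/
theorem parts {r : ℕ} {F : Finset (Finset V)} (hG : Good r F) (h2 : 2 ≤ F.card) :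
    ∃ A B : Finset (Finset V), A.Nonempty ∧ B.Nonempty ∧ Disjoint A B ∧ A ∪ B = F ∧
      ((∀ a ∈ A, ∀ b ∈ B, ¬ (a ∩ b).Nonempty) ∨ (∀ a ∈ A, ∀ b ∈ B, (a ∩ b).Nonempty)) := by
  refine split (fun a b : Finset V => (a ∩ b).Nonempty) meets_symm F.card F rfl h2 ?_
  intro a ha b hb c hc d hd _ _ _ _ _ _ h1 h2 h3 h4 h5 h6
  exact hG.free a ha b hb c hc d hd h1 h2 h3 h4 h5 h6

theorem L0 {r : ℕ} (hr : 2 ≤ r) {w : V → ℝ} {v : V} (hv : w v ≠ 0) :
    ∀ (n : ℕ) (F : Finset (Finset V)), F.card = n → Good r F → Val F w →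
    ∀ y : Finset V → ℝ, (∀ x, T F y x = sg F y * w x) → (∀ e ∈ F, v ∈ e → y e = 0) →
    ∀ e ∈ F, y e = 0 := by
  intro n
  induction n using Nat.strong_induction_on with
  | _ n ih =>
  intro F hn hG hw y hy h0
  have hTv : T F y v = 0 := sum_eq_zero fun e he => by
    split_ifs with h
    · exact h0 e he h
    · rfl
  have hsg : sg F y = 0 := by
    have := hy v
    rw [hTv] at this
    rcases mul_eq_zero.1 this.symm with h | h
    · exact h
    · exact absurd h hv
  rcases Nat.lt_or_ge F.card 2 with h2 | h2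
  · intro e he
    have h1 : F = {e} := by
      refine (eq_of_subset_of_card_le (singleton_subset_iff.2 he) ?_).symm
      rw [card_singleton]; omega
    rw [h1] at hsg
    unfold sg at hsg
    rwa [sum_singleton] at hsg
  · obtain ⟨A, B, hA, hB, hd, hAB, hm⟩ := parts hG h2
    subst hAB
    have hcA : A.card < n := by
      rw [← hn, card_union_of_disjoint hd]
      have := card_pos.2 hB
      omega
    have hcB : B.card < n := by
      rw [← hn, card_union_of_disjoint hd]
      have := card_pos.2 hA
      omega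
    have h00 : ∀ x, T (A ∪ B) y x = 0 := fun x => by rw [hy, hsg, zero_mul]
    rcases hm with hm | hm
    · obtain ⟨hTA, hTB⟩ := part_T hd hm h00
      obtain ⟨a0, ha0⟩ := hA
      obtain ⟨b0, hb0⟩ := hB
      intro e he
      rcases mem_union.1 he with he | he
      · exact Z_part hr hG hw subset_union_left (mem_union_right _ hb0)
          (fun a ha => hm a ha b0 hb0) hTA e he
      · exact Z_part hr hG hw subset_union_right (mem_union_left _ ha0)
          (fun b hb h => hm a0 ha0 b hb (meets_symm _ _ h)) hTB e he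
    · have h1 := meet_one hG hd hm
      obtain ⟨hYA, hYB⟩ := join_Y hd h1 hw hy
      intro e he
      rcases mem_union.1 he with he | he
      · exact ih _ hcA A rfl (hG.mono subset_union_left) (hw.mono subset_union_left) y hYA
          (fun e he => h0 e (mem_union_left _ he)) e he
      · exact ih _ hcB B rfl (hG.mono subset_union_right) (hw.mono subset_union_right) y hYB
          (fun e he => h0 e (mem_union_right _ he)) e he

theorem L1 {r : ℕ} (hr : 2 ≤ r) {w : V → ℝ} {v : V} (hv : w v ≠ 0) (e0 : Finset V) :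
    ∀ (n : ℕ) (F : Finset (Finset V)), F.card = n → Good r F → Val F w → e0 ∈ F →
    ∀ y : Finset V → ℝ, (∀ x, T F y x = sg F y * w x) → sg F y = 0 →
    (∀ e ∈ F, v ∈ e → (e ∩ e0).Nonempty → y e = 0) → ∀ e ∈ F, y e = 0 := by
  intro n
  induction n using Nat.strong_induction_on with
  | _ n ih =>
  intro F hn hG hw he0 y hy hsg h0
  rcases Nat.lt_or_ge F.card 2 with h2 | h2
  · intro e he
    have h1 : F = {e} := by
      refine (eq_of_subset_of_card_le (singleton_subset_iff.2 he) ?_).symm
      rw [card_singleton]; omega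
    rw [h1] at hsg
    unfold sg at hsg
    rwa [sum_singleton] at hsg
  · obtain ⟨A, B, hA, hB, hd, hAB, hm⟩ := parts hG h2
    subst hAB
    have hcA : A.card < n := by
      rw [← hn, card_union_of_disjoint hd]
      have := card_pos.2 hB
      omega
    have hcB : B.card < n := by
      rw [← hn, card_union_of_disjoint hd]
      have := card_pos.2 hA
      omega
    have h00 : ∀ x, T (A ∪ B) y x = 0 := fun x => by rw [hy, hsg, zero_mul]
    rcases hm with hm | hm
    · obtain ⟨hTA, hTB⟩ := part_T hd hm h00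
      obtain ⟨a0, ha0⟩ := hA
      obtain ⟨b0, hb0⟩ := hB
      intro e he
      rcases mem_union.1 he with he | he
      · exact Z_part hr hG hw subset_union_left (mem_union_right _ hb0)
          (fun a ha => hm a ha b0 hb0) hTA e he
      · exact Z_part hr hG hw subset_union_right (mem_union_left _ ha0)
          (fun b hb h => hm a0 ha0 b hb (meets_symm _ _ h)) hTB e he
    · have h1 := meet_one hG hd hm
      obtain ⟨hYA, hYB⟩ := join_Y hd h1 hw hy
      have hs2 := hsg
      rw [sg_union hd] at hs2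
      rcases mem_union.1 he0 with he0' | he0'
      · have hB0 : ∀ e ∈ B, y e = 0 := L0 hr hv _ B rfl (hG.mono subset_union_right)
          (hw.mono subset_union_right) y hYB
          (fun e he hve => h0 e (mem_union_right _ he) hve (meets_symm _ _ (hm e0 he0' e he)))
        have hsB : sg B y = 0 := sum_eq_zero fun e he => hB0 e he
        have hsA : sg A y = 0 := by linarith
        have hA0 := ih _ hcA A rfl (hG.mono subset_union_left) (hw.mono subset_union_left) he0' y
          hYA hsA (fun e he => h0 e (mem_union_left _ he))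
        intro e he
        rcases mem_union.1 he with he | he
        · exact hA0 e he
        · exact hB0 e he
      · have hA0 : ∀ e ∈ A, y e = 0 := L0 hr hv _ A rfl (hG.mono subset_union_left)
          (hw.mono subset_union_left) y hYA
          (fun e he hve => h0 e (mem_union_left _ he) hve (hm e he e0 he0'))
        have hsA : sg A y = 0 := sum_eq_zero fun e he => hA0 e he
        have hsB : sg B y = 0 := by linarith
        have hB0 := ih _ hcB B rfl (hG.mono subset_union_right) (hw.mono subset_union_right) he0' y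
          hYB hsB (fun e he => h0 e (mem_union_right _ he))
        intro e he
        rcases mem_union.1 he with he | he
        · exact hA0 e he
        · exact hB0 e he

/-- the edges through `v` which meet `e0` -/
def near (F : Finset (Finset V)) (v : V) (e0 : Finset V) : Finset (Finset V) :=
  F.filter fun g => v ∈ g ∧ (g ∩ e0).Nonempty

theorem near_card {r : ℕ} {F : Finset (Finset V)} (hG : Good r F) {v : V} {e0 : Finset V}
    (he0 : e0 ∈ F) (hv : v ∉ e0) : (near F v e0).card ≤ r := by
  rw [← hG.unif e0 he0]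
  have hc : ∀ g ∈ near F v e0, ∃ u, u ∈ g ∩ e0 := fun g hg => (mem_filter.1 hg).2.2
  haveI : Nonempty V := ⟨v⟩
  choose! c hc' using hc
  refine card_le_card_of_injOn c (fun g hg => (mem_inter.1 (hc' g hg)).2) ?_
  intro g hg h hh hgh
  by_contra hne
  have hg' := mem_filter.1 (mem_coe.1 hg)
  have hh' := mem_filter.1 (mem_coe.1 hh)
  have h1 := hG.lin g hg'.1 h hh'.1 hne
  have h2 : ({v, c g} : Finset V) ⊆ g ∩ h := by
    intro x hx
    rw [mem_insert, mem_singleton] at hx
    rcases hx with rfl | rfl
    · exact mem_inter.2 ⟨hg'.2.1, hh'.2.1⟩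
    · refine mem_inter.2 ⟨(mem_inter.1 (hc' g hg)).1, ?_⟩
      rw [hgh]
      exact (mem_inter.1 (hc' h hh)).1
  have h3 : v ≠ c g := by
    intro h
    apply hv
    rw [h]
    exact (mem_inter.1 (hc' g hg)).2
  have h4 := card_le_card h2
  rw [card_pair h3] at h4
  omega

/-- if every edge contains `v`, the kernel is trivial -/
theorem star_nu {r : ℕ} (hr : 2 ≤ r) {F : Finset (Finset V)} (hG : Good r F) {v : V}
    (h : ∀ e ∈ F, v ∈ e) : nu F = 0 := by
  refine nu_zero fun y hy => ?_
  funext e
  by_cases he : e ∈ F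
  · have h1 : ∃ u ∈ e, u ≠ v := by
      have := hG.unif e he
      exact Finset.exists_mem_ne (by omega) v
    obtain ⟨u, hu, huv⟩ := h1
    have h2 := hy.2 u
    unfold T at h2
    rw [sum_eq_single e] at h2
    · rwa [if_pos hu] at h2
    · intro f hf hfe
      rw [if_neg]
      intro huf
      have h3 := hG.lin e he f hf (Ne.symm hfe)
      have h4 : ({u, v} : Finset V) ⊆ e ∩ f := by
        intro x hx
        rw [mem_insert, mem_singleton] at hx
        rcases hx with rfl | rfl
        · exact mem_inter.2 ⟨hu, huf⟩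
        · exact mem_inter.2 ⟨h e he, h f hf⟩
      have h5 := card_le_card h4
      rw [card_pair huv] at h5
      omega
    · intro h'; exact absurd he h'
  · exact hy.1 e he

theorem near_inj {r : ℕ} (hr : 2 ≤ r) {F : Finset (Finset V)} (hG : Good r F) {w : V → ℝ}
    (hw : Val F w) {v : V} (hv : w v ≠ 0) {e0 : Finset V} (he0 : e0 ∈ F) :
    ∀ y ∈ Z F, (∀ g ∈ near F v e0, y g = 0) → y = 0 := by
  intro y hy h
  have hs := sg_zero hr hG hy.2
  have := L1 hr hv e0 _ F rfl hG hw he0 y (fun x => by rw [hy.2, hs, zero_mul]) hs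
    (fun e he hve hm => h e (mem_filter.2 ⟨he, hve, hm⟩))
  funext e
  by_cases he : e ∈ F
  · exact this e he
  · exact hy.1 e he

theorem nu_val {r : ℕ} (hr : 2 ≤ r) {F : Finset (Finset V)} (hG : Good r F) {w : V → ℝ}
    (hw : Val F w) : nu F ≤ r := by
  have h1 : ∃ v, w v ≠ 0 := by
    by_contra h
    push Not at h
    have := hw.norm
    simp [h] at this
  obtain ⟨v, hv⟩ := h1
  by_cases h : ∀ e ∈ F, v ∈ e
  · rw [star_nu hr hG h]; omega
  · push Not at h
    obtain ⟨e0, he0, hve0⟩ := h
    exact le_trans (nu_le_card _ (near_inj hr hG hw hv he0)) (near_card hG he0 hve0)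

end Pool.Agent.R79.LP4
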